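import Pool.Agent.Lib.MP_60fb2a_nt.R.Spec

/-!
# MP_60fb2a_nt, directory R: the counting argument
-/

set_option autoImplicit false

namespace Pool.Agent.Lib.NagA.R

open Polynomial Classical

private theorem Abs_pow {M : Type} [AddCommGroup M] (h : M → ℕ) (h4 : ∀ x, h (x + x) = 4 * h x)
    (n : ℕ) (x : M) : h ((2 ^ n : ℤ) • x) = 4 ^ n * h x := by
  induction n with
  | zero => simp
  | succ n ih =>
    have h1 : ((2 ^ (n + 1) : ℤ)) • x = (2 ^ n : ℤ) • x + (2 ^ n : ℤ) • x := by
      rw [← add_smul]; congr 1; ring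
    rw [h1, h4, ih]; ring

private theorem Abs_A {M : Type} [AddCommGroup M] (h : M → ℕ) (h4 : ∀ x, h (x + x) = 4 * h x)
    (h0 : ∀ x, h x = 0 → x + x = 0) (n : ℕ) (R P : M) (c : ℤ)
    (hRP : (2 ^ n : ℤ) • R = c • P) (hP : P + P ≠ 0) : (2 ^ n : ℤ) ∣ 2 ^ (h P) * c := by
  by_cases hc : c = 0
  · subst hc; simp
  have hfm : FiniteMultiplicity (2 : ℤ) c :=
    FiniteMultiplicity.of_prime_left Int.prime_two hc
  obtain ⟨c', hc1, hc'⟩ := hfm.exists_eq_pow_mul_and_not_dvd
  set v := multiplicity (2 : ℤ) c with hv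
  clear_value v
  subst hc1
  by_cases hnv : n ≤ v
  · exact dvd_mul_of_dvd_right (dvd_mul_of_dvd_left (pow_dvd_pow 2 hnv) _) _
  push Not at hnv
  obtain ⟨u, hu⟩ : ∃ u, n = v + u := ⟨n - v, by omega⟩
  subst hu
  have hy1 : (2 ^ v : ℤ) • ((2 ^ u : ℤ) • R - c' • P) = 0 := by
    rw [smul_sub, smul_smul, smul_smul, ← pow_add, hRP, sub_self]
  have h00 : h 0 = 0 := by
    have := h4 0
    rw [add_zero] at this
    omega
  have hy2 : h ((2 ^ u : ℤ) • R - c' • P) = 0 := by
    have h5 := Abs_pow h h4 v ((2 ^ u : ℤ) • R - c' • P)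
    rw [hy1, h00] at h5
    have h6 : (4 : ℕ) ^ v ≠ 0 := by positivity
    rcases mul_eq_zero.mp h5.symm with h7 | h7
    · exact absurd h7 h6
    · exact h7
  have hy3 := h0 _ hy2
  obtain ⟨α, β, hαβ⟩ : IsCoprime c' ((2 : ℤ) ^ u) :=
    IsCoprime.pow_right ((Int.prime_two.coprime_iff_not_dvd.2 hc').symm)
  set z := α • R + β • P with hz
  have h1 : P = (2 ^ u : ℤ) • z - α • ((2 ^ u : ℤ) • R - c' • P) := by
    calc P = (1 : ℤ) • P := (one_smul _ _).symm
      _ = (α * c' + β * 2 ^ u) • P := by rw [hαβ]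
      _ = _ := by rw [hz]; module
  have h2 : P + P = (2 ^ u : ℤ) • (z + z) := by
    have h3 : P + P = (2 ^ u : ℤ) • (z + z) -
        α • (((2 ^ u : ℤ) • R - c' • P) + ((2 ^ u : ℤ) • R - c' • P)) := by
      calc P + P = ((2 ^ u : ℤ) • z - α • ((2 ^ u : ℤ) • R - c' • P)) +
          ((2 ^ u : ℤ) • z - α • ((2 ^ u : ℤ) • R - c' • P)) := by rw [← h1]
        _ = _ := by module
    rw [h3, hy3, smul_zero, sub_zero]
  have h3 : 4 * h P = 4 ^ u * (4 * h z) := by
    rw [← h4 P, ← h4 z, h2, Abs_pow h h4]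
  have hz0 : h z ≠ 0 := by
    intro hh
    exact hP (by rw [h2, h0 z hh, smul_zero])
  have h5 : u ≤ h P := by
    have h6 : u < 4 ^ u := Nat.lt_pow_self (by norm_num)
    have h7 : 1 ≤ h z := by omega
    have h8 : h P = 4 ^ u * h z := by
      have h9 : 4 ^ u * (4 * h z) = 4 * (4 ^ u * h z) := by ring
      omega
    have h9 : 4 ^ u * 1 ≤ 4 ^ u * h z := Nat.mul_le_mul_left _ h7
    omega
  rw [pow_add, mul_comm ((2 : ℤ) ^ v) (2 ^ u)]
  exact mul_dvd_mul (pow_dvd_pow 2 h5) (dvd_mul_right _ _)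

private theorem Abs_B {M : Type} [AddCommGroup M] {N : ℕ} (P : Fin N → M)
    (hs : ∀ i j, i ≠ j → ∃ s : M →+ M, (∀ l, s (P l) = P l ∨ s (P l) = -P l) ∧
      ((s (P i) = P i ∧ s (P j) = -P j) ∨ (s (P i) = -P i ∧ s (P j) = P j)))
    (i : Fin N) (S : Finset (Fin N)) : i ∉ S →
    ∃ (T : M →+ M) (t : Fin N → ℤ), (∀ l, T (P l) = t l • P l) ∧ (∀ j ∈ S, t j = 0) ∧
      (t i = 2 ^ S.card ∨ t i = -2 ^ S.card) := by
  induction S using Finset.induction_on with
  | empty =>
    intro _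
    exact ⟨AddMonoidHom.id M, fun _ => 1, by simp, by simp, Or.inl (by simp)⟩
  | insert j S hjS ih =>
    intro hiS
    have hiS' : i ∉ S := fun h => hiS (Finset.mem_insert_of_mem h)
    have hij : i ≠ j := fun h => hiS (h ▸ Finset.mem_insert_self _ _)
    obtain ⟨T, t, hT, hS, hti⟩ := ih hiS'
    obtain ⟨s, hsl, hsij⟩ := hs i j hij
    rw [Finset.card_insert_of_notMem hjS]
    rcases hsij with ⟨hsi, hsj⟩ | ⟨hsi, hsj⟩
    · refine ⟨(s + AddMonoidHom.id M).comp T,
        fun l => t l * (if l = j then 0 else if s (P l) = P l then 2 else 0), ?_, ?_, ?_⟩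
      · intro l
        have h1 : s (P l) + P l = (if l = j then 0 else if s (P l) = P l then 2 else 0 : ℤ) • P l := by
          by_cases hl : l = j
          · subst hl
            rw [hsj]; simp
          · by_cases hl2 : s (P l) = P l
            · rw [hl2]; simp [hl, two_smul]
            · rcases hsl l with h3 | h3
              · exact absurd h3 hl2
              · rw [if_neg hl, if_neg hl2, h3]; simp
        simp only [AddMonoidHom.comp_apply, AddMonoidHom.add_apply, AddMonoidHom.id_apply]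
        rw [hT, map_zsmul, ← smul_add, h1, smul_smul]
      · intro l hl
        rcases Finset.mem_insert.mp hl with h3 | h3
        · simp [h3]
        · simp [hS l h3]
      · simp only [hij, if_false, hsi, if_true]
        rcases hti with h3 | h3
        · left; rw [h3]; ring
        · right; rw [h3]; ring
    · refine ⟨(s - AddMonoidHom.id M).comp T,
        fun l => t l * (if l = j then 0 else if s (P l) = -P l then -2 else 0), ?_, ?_, ?_⟩
      · intro l
        have h1 : s (P l) - P l =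
            (if l = j then 0 else if s (P l) = -P l then -2 else 0 : ℤ) • P l := by
          by_cases hl : l = j
          · subst hl
            rw [hsj]; simp
          · by_cases hl2 : s (P l) = -P l
            · rw [if_neg hl, if_pos hl2, hl2]; module
            · rcases hsl l with h3 | h3
              · rw [if_neg hl, if_neg hl2, h3]; simp
              · exact absurd h3 hl2
        simp only [AddMonoidHom.comp_apply, AddMonoidHom.sub_apply, AddMonoidHom.id_apply]
        rw [hT, map_zsmul, ← smul_sub, h1, smul_smul]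
      · intro l hl
        rcases Finset.mem_insert.mp hl with h3 | h3
        · simp [h3]
        · simp [hS l h3]
      · simp only [hij, if_false, hsi, if_true]
        rcases hti with h3 | h3
        · right; rw [h3]; ring
        · left; rw [h3]; ring

private theorem Abs_C {M : Type} [AddCommGroup M] {N : ℕ} (h : M → ℕ)
    (h4 : ∀ x, h (x + x) = 4 * h x) (h0 : ∀ x, h x = 0 → x + x = 0) (P : Fin N → M)
    (hP : ∀ i, P i + P i ≠ 0)
    (hs : ∀ i j, i ≠ j → ∃ s : M →+ M, (∀ l, s (P l) = P l ∨ s (P l) = -P l) ∧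
      ((s (P i) = P i ∧ s (P j) = -P j) ∨ (s (P i) = -P i ∧ s (P j) = P j)))
    (n q : ℕ) (hn : n = (N + ∑ l, h (P l)) + q) (R : M) (c : Fin N → ℤ)
    (hsum : ∑ l, c l • P l = (2 ^ n : ℤ) • R) (i : Fin N) : (2 ^ q : ℤ) ∣ c i := by
  obtain ⟨T, t, hT, hS, hti⟩ := Abs_B P hs i (Finset.univ.erase i) (by simp)
  have h1 : (2 ^ n : ℤ) • T R = (c i * t i) • P i := by
    rw [← map_zsmul, ← hsum, map_sum]
    rw [Finset.sum_eq_single i]
    · rw [map_zsmul, hT, smul_smul]
    · intro l _ hl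
      rw [map_zsmul, hT, hS l (by simp [hl]), zero_smul, smul_zero]
    · simp
  have h2 := Abs_A h h4 h0 n (T R) (P i) (c i * t i) h1 (hP i)
  have hcard : (Finset.univ.erase i).card = N - 1 := by simp [Finset.card_erase_of_mem]
  have hN : 1 ≤ N := by have := i.2; omega
  have h3 : (2 ^ n : ℤ) ∣ 2 ^ (h (P i) + (N - 1)) * c i := by
    rw [hcard] at hti
    rcases hti with hti | hti
    · rw [hti] at h2
      have h5 : (2 : ℤ) ^ (h (P i) + (N - 1)) * c i = 2 ^ h (P i) * (c i * 2 ^ (N - 1)) := by ring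
      rw [h5]; exact h2
    · rw [hti] at h2
      have h5 : (2 : ℤ) ^ (h (P i) + (N - 1)) * c i = -(2 ^ h (P i) * (c i * -2 ^ (N - 1))) := by
        ring
      rw [h5]; exact (dvd_neg.mpr h2)
  have hle : h (P i) ≤ ∑ l, h (P l) :=
    Finset.single_le_sum (f := fun l => h (P l)) (fun _ _ => Nat.zero_le _) (Finset.mem_univ i)
  obtain ⟨r, hr⟩ : ∃ r, n = (h (P i) + (N - 1)) + (q + r) :=
    ⟨n - (h (P i) + (N - 1)) - q, by omega⟩
  rw [hr, pow_add (2 : ℤ) (h (P i) + (N - 1)) (q + r)] at h3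
  have h5 : (2 : ℤ) ^ (h (P i) + (N - 1)) ≠ 0 := by positivity
  exact dvd_trans (pow_dvd_pow 2 (Nat.le_add_right q r)) ((mul_dvd_mul_iff_left h5).1 h3)

private theorem Abs_D {M : Type} [AddCommGroup M] (C : ℕ) (c : M → Fin C)
    (hc : ∀ x y : M, c x = c y → ∃ z, x - y = z + z) (n : ℕ) : ∀ S : Finset M, C ^ n < S.card →
    ∃ x ∈ S, ∃ y ∈ S, x ≠ y ∧ ∃ z, x - y = (2 ^ n : ℤ) • z := by
  induction n with
  | zero =>
    intro S hS
    obtain ⟨x, hx, y, hy, hxy⟩ := Finset.one_lt_card.mp (by simpa using hS)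
    exact ⟨x, hx, y, hy, hxy, x - y, by simp⟩
  | succ n ih =>
    intro S hS
    obtain ⟨k, -, hk⟩ := Finset.exists_lt_card_fiber_of_mul_lt_card_of_maps_to
      (s := S) (t := Finset.univ) (f := c) (n := C ^ n) (fun _ _ => Finset.mem_univ _)
      (by rw [Finset.card_univ, Fintype.card_fin]; rw [pow_succ, mul_comm] at hS; exact hS)
    set S' := S.filter (fun x => c x = k) with hS'
    have hne : S'.Nonempty := Finset.card_pos.mp (by omega)
    obtain ⟨x0, hx0⟩ := hne
    have hu' : ∀ x, ∃ u, x ∈ S' → x - x0 = u + u := fun x => by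
      by_cases hx : x ∈ S'
      · obtain ⟨u, hu⟩ := hc x x0
          (by rw [(Finset.mem_filter.mp hx).2, (Finset.mem_filter.mp hx0).2])
        exact ⟨u, fun _ => hu⟩
      · exact ⟨0, fun h => absurd h hx⟩
    choose u hu2 using hu'
    have hinj : Set.InjOn u (S' : Set M) := by
      intro x hx y hy hxy
      have h1 := hu2 x hx
      have h2 := hu2 y hy
      rw [hxy] at h1
      exact sub_left_injective (h1.trans h2.symm)
    have hcard : C ^ n < (S'.image u).card := by
      rw [Finset.card_image_of_injOn hinj]; exact hk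
    obtain ⟨a, ha, b, hb, hab, z, hz⟩ := ih _ hcard
    obtain ⟨x, hx, rfl⟩ := Finset.mem_image.mp ha
    obtain ⟨y, hy, rfl⟩ := Finset.mem_image.mp hb
    refine ⟨x, (Finset.mem_filter.mp hx).1, y, (Finset.mem_filter.mp hy).1,
      fun h => hab (by rw [h]), z, ?_⟩
    have h1 : x - y = (u x - u y) + (u x - u y) := by
      calc x - y = (x - x0) - (y - x0) := by abel
        _ = (u x + u x) - (u y + u y) := by rw [hu2 x hx, hu2 y hy]
        _ = _ := by abel
    rw [h1, hz, ← add_smul]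
    congr 1; ring

theorem tAbs : S_Abs := by
  intro M _ C N c h hc h4 h0 P hP hs
  by_contra hlt
  push Not at hlt
  have hCpos : 1 ≤ C := by
    have := (c 0).2
    omega
  obtain ⟨q, hq⟩ : ∃ q : ℕ, C ^ ((N + ∑ l, h (P l)) + q) < (2 ^ q) ^ N := by
    have hCr : (0 : ℝ) < C := by exact_mod_cast hCpos
    have h1 : (1 : ℝ) < (2 ^ N : ℝ) / C := by
      rw [one_lt_div hCr]; exact_mod_cast hlt
    obtain ⟨q, hq⟩ := pow_unbounded_of_one_lt ((C : ℝ) ^ (N + ∑ l, h (P l))) h1
    refine ⟨q, ?_⟩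
    rw [div_pow, lt_div_iff₀ (by positivity)] at hq
    have h2 : (C : ℝ) ^ ((N + ∑ l, h (P l)) + q) < ((2 ^ q) ^ N : ℝ) := by
      rw [pow_add, ← pow_mul, mul_comm q N, pow_mul]; exact hq
    exact_mod_cast h2
  set n := (N + ∑ l, h (P l)) + q with hn
  let f : (Fin N → Fin (2 ^ q)) → M := fun a => ∑ l, ((a l : ℕ) : ℤ) • P l
  have key : ∀ a a' : Fin N → Fin (2 ^ q), ∀ z : M, f a - f a' = (2 ^ n : ℤ) • z → a = a' := by
    intro a a' z hz
    funext l
    have h1 : ∑ l, (((a l : ℕ) : ℤ) - ((a' l : ℕ) : ℤ)) • P l = (2 ^ n : ℤ) • z := by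
      rw [← hz]; simp only [f, sub_smul, Finset.sum_sub_distrib]
    have h2 := Abs_C h h4 h0 P hP hs n q hn z _ h1 l
    have h3 : ((a l : ℕ) : ℤ) < 2 ^ q := by exact_mod_cast (a l).2
    have h5 : ((a' l : ℕ) : ℤ) < 2 ^ q := by exact_mod_cast (a' l).2
    have h6 : ((a l : ℕ) : ℤ) - ((a' l : ℕ) : ℤ) = 0 := by
      refine Int.eq_zero_of_abs_lt_dvd h2 ?_
      rw [abs_lt]
      constructor <;> omega
    apply Fin.ext
    omega
  have hfinj : Function.Injective f := fun a a' haa =>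
    key a a' 0 (by rw [haa, sub_self, smul_zero])
  have hcard : C ^ n < (Finset.univ.image f).card := by
    rw [Finset.card_image_of_injective _ hfinj]
    simpa using hq
  obtain ⟨x, hx, y, hy, hxy, z, hz⟩ := Abs_D C c hc n _ hcard
  obtain ⟨a, -, rfl⟩ := Finset.mem_image.mp hx
  obtain ⟨a', -, rfl⟩ := Finset.mem_image.mp hy
  exact hxy (by rw [key a a' z hz])

end Pool.Agent.Lib.NagA.R
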