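import Pool.Agent.Lib.MP_60fb2a_nt.R.Spec

/-!
# MP_60fb2a_nt, directory R: assembly of the rank part
-/

set_option autoImplicit false

namespace Pool.Agent.Lib.NagA.R

open Polynomial Classical

private theorem charZ : CharZero FF := by
  have hinj : Function.Injective (RatFunc.C : kk →+* FF) := (RatFunc.C : kk →+* FF).injective
  exact charZero_of_injective_ringHom hinj

theorem tAll : S_All := by
  intro hAbs hGrp hMap _hTwo _hHt hNcs _hPar hSig hGal hHgt hCls hEig a b D hd hD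
  have hcz : CharZero FF := charZ
  by_contra hinf
  have hinf' : {d : ℤ | Squarefree d ∧
      rk (twA d (C a * D ^ 2)) (twB d (C b * D ^ 3)) ≠ 0}.Infinite := hinf
  obtain ⟨Cn, c, hc⟩ := hCls a b D hd hD
  obtain ⟨h, h4, h0⟩ := hHgt a b D hd hD
  obtain ⟨N, hN⟩ : ∃ N : ℕ, Cn < 2 ^ N := ⟨Cn, Nat.lt_two_pow_self⟩
  obtain ⟨S, hSsub, hScard⟩ := hinf'.exists_subset_card_eq N
  set e := S.equivFinOfCardEq hScard with he
  set d : Fin N → ℤ := fun i => ((e.symm i : S) : ℤ) with hdd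
  have hdinj : Function.Injective d := by
    intro i j hij
    exact e.symm.injective (Subtype.ext hij)
  have hdS : ∀ i, Squarefree (d i) ∧
      rk (twA (d i) (C a * D ^ 2)) (twB (d i) (C b * D ^ 3)) ≠ 0 := by
    intro i
    have := hSsub (e.symm i).2
    exact this
  have hw : ∀ i, ∃ w : kk, w ^ 2 = ((d i : ℤ) : kk) := fun i =>
    IsAlgClosed.exists_pow_nat_eq _ two_pos
  choose w hw using hw
  have hP : ∀ i, ∃ (P : MK a b D) (x y : FF), IsXY P x y ∧ P + P ≠ 0 ∧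
      ∀ σ : kk ≃ₐ[ℚ] kk, SS σ x = x ∧
      (σ (w i) = w i → SS σ y = y) ∧ (σ (w i) = -w i → SS σ y = -y) := fun i =>
    hEig a b D hd hD (d i) (w i) (hdS i).1 (hw i) (hdS i).2
  choose P x y hPxy hPP hσ using hP
  have hdisc : 4 * ((a : FF) * dd D ^ 2) ^ 3 + 27 * ((b : FF) * dd D ^ 3) ^ 2 ≠ 0 := by
    have h1 : 4 * ((a : FF) * dd D ^ 2) ^ 3 + 27 * ((b : FF) * dd D ^ 3) ^ 2 =
        dd D ^ 6 * ((4 * a ^ 3 + 27 * b ^ 2 : ℤ) : FF) := by push_cast; ring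
    rw [h1]
    refine mul_ne_zero (pow_ne_zero _ (hNcs D hD).2.1) ?_
    exact_mod_cast hd
  obtain ⟨-, -, -, hG4, -, hG6, -, -, -⟩ := hGrp FF ((a : FF) * dd D ^ 2) ((b : FF) * dd D ^ 3)
    two_ne_zero hdisc
  have hfin : 2 ^ N ≤ Cn := by
    refine hAbs (MK a b D) Cn N c h hc h4 h0 P hPP ?_
    intro i j hij
    obtain ⟨σ, hs⟩ := hGal (d i) (d j) (w i) (w j) (hdS i).1 (hdS j).1
      (fun hh => hij (hdinj hh)) (hw i) (hw j)
    have hA : SS σ ((a : FF) * dd D ^ 2) = (a : FF) * dd D ^ 2 := by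
      rw [map_mul, map_pow, (hSig σ).2.2.1 D, (hSig σ).2.2.2.1 a]
    have hB : SS σ ((b : FF) * dd D ^ 3) = (b : FF) * dd D ^ 3 := by
      rw [map_mul, map_pow, (hSig σ).2.2.1 D, (hSig σ).2.2.2.1 b]
    obtain ⟨g, hg⟩ := hMap FF ((a : FF) * dd D ^ 2) ((b : FF) * dd D ^ 3) (SS σ) hA hB
    have hplus : ∀ l, σ (w l) = w l → g (P l) = P l := by
      intro l hl
      have h1 := hg (P l) (x l) (y l) (hPxy l)
      rw [(hσ l σ).1, (hσ l σ).2.1 hl] at h1
      exact hG4 _ _ _ _ h1 (hPxy l)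
    have hminus : ∀ l, σ (w l) = -w l → g (P l) = -P l := by
      intro l hl
      have h1 := hg (P l) (x l) (y l) (hPxy l)
      rw [(hσ l σ).1, (hσ l σ).2.2 hl] at h1
      exact hG4 _ _ _ _ h1 (hG6 _ _ _ (hPxy l))
    refine ⟨g, ?_, ?_⟩
    · intro l
      have h1 : (σ (w l)) ^ 2 = (w l) ^ 2 := by
        rw [← map_pow, hw l, map_intCast]
      rcases sq_eq_sq_iff_eq_or_eq_neg.mp h1 with h2 | h2
      · exact Or.inl (hplus l h2)
      · exact Or.inr (hminus l h2)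
    · rcases hs with ⟨h1, h2⟩ | ⟨h1, h2⟩
      · exact Or.inl ⟨hplus i h1, hminus j h2⟩
      · exact Or.inr ⟨hminus i h1, hplus j h2⟩
  omega

end Pool.Agent.Lib.NagA.R
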