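import Pool.Agent.Lib.MP_60fb2a_nt.R.Spec

/-!
# MP_60fb2a_nt, directory R: finitely many classes modulo `2`
-/

set_option autoImplicit false

namespace Pool.Agent.Lib.NagA.R

open Polynomial Classical

private theorem Cls_cz : CharZero FF :=
  charZero_of_injective_ringHom (RatFunc.C : kk →+* FF).injective

private theorem Cls_roots (a b : kk) : ∃ e : Fin 3 → kk, e 0 + e 1 + e 2 = 0 ∧
    a = e 0 * e 1 + e 0 * e 2 + e 1 * e 2 ∧ b = -(e 0 * e 1 * e 2) := by
  obtain ⟨r, hr⟩ : ∃ r : kk, (Polynomial.X ^ 3 + C a * Polynomial.X + C b : kk[X]).IsRoot r := by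
    apply IsAlgClosed.exists_root
    have h1 : (Polynomial.X ^ 3 + C a * Polynomial.X + C b : kk[X]).degree = 3 := by
      compute_degree!
    rw [h1]
    exact three_ne_zero
  obtain ⟨s, hs⟩ : ∃ s : kk, s ^ 2 = -3 * r ^ 2 - 4 * a := IsAlgClosed.exists_pow_nat_eq _ two_pos
  rw [IsRoot] at hr
  simp only [eval_add, eval_mul, eval_pow, eval_X, eval_C] at hr
  refine ⟨![r, (-r + s) / 2, (-r - s) / 2], ?_, ?_, ?_⟩
  · change r + (-r + s) / 2 + (-r - s) / 2 = 0
    ring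
  · change a = r * ((-r + s) / 2) + r * ((-r - s) / 2) + (-r + s) / 2 * ((-r - s) / 2)
    linear_combination (1 / 4) * hs
  · change b = -(r * ((-r + s) / 2) * ((-r - s) / 2))
    linear_combination hr - (r / 4) * hs

private theorem Cls_inj (a b : kk) (e : Fin 3 → kk) (he : e 0 + e 1 + e 2 = 0)
    (ha : a = e 0 * e 1 + e 0 * e 2 + e 1 * e 2) (hb : b = -(e 0 * e 1 * e 2))
    (h : 4 * a ^ 3 + 27 * b ^ 2 ≠ 0) : Function.Injective e := by
  have h2 : e 2 = -(e 0 + e 1) := by linear_combination he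
  have hdisc : 4 * a ^ 3 + 27 * b ^ 2 = -((e 0 - e 1) * (e 0 - e 2) * (e 1 - e 2)) ^ 2 := by
    rw [ha, hb, h2]; ring
  have h01 : e 0 ≠ e 1 := by
    intro h3
    apply h
    rw [hdisc, h3]; ring
  have h02 : e 0 ≠ e 2 := by
    intro h3
    apply h
    rw [hdisc, h3]; ring
  have h12 : e 1 ≠ e 2 := by
    intro h3
    apply h
    rw [hdisc, h3]; ring
  intro i j hij
  fin_cases i <;> fin_cases j
  · rfl
  · exact absurd hij h01
  · exact absurd hij h02
  · exact absurd hij.symm h01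
  · rfl
  · exact absurd hij h12
  · exact absurd hij.symm h02
  · exact absurd hij.symm h12
  · rfl

theorem tCls (h1 : S_Grp) (h2 : S_Two) (h3 : S_Par) (h4 : S_Ncs) : S_Cls := by
  intro a b D hd hD
  have hcz : CharZero FF := Cls_cz
  obtain ⟨hD0, hdd0, -⟩ := h4 D hD
  have hDd0 : Dd D ≠ 0 := by
    intro h
    apply hdd0
    rw [dd, h, map_zero]
  have hdisc : 4 * ((a : FF) * dd D ^ 2) ^ 3 + 27 * ((b : FF) * dd D ^ 3) ^ 2 ≠ 0 := by
    have h1 : 4 * ((a : FF) * dd D ^ 2) ^ 3 + 27 * ((b : FF) * dd D ^ 3) ^ 2 =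
        dd D ^ 6 * ((4 * a ^ 3 + 27 * b ^ 2 : ℤ) : FF) := by push_cast; ring
    rw [h1]
    refine mul_ne_zero (pow_ne_zero _ hdd0) ?_
    exact_mod_cast hd
  obtain ⟨g1, g2, g3, g4, g5, g6, g7, g8, -⟩ :=
    h1 FF ((a : FF) * dd D ^ 2) ((b : FF) * dd D ^ 3) two_ne_zero hdisc
  obtain ⟨e, he, hea, heb⟩ := Cls_roots ((a : ℤ) : kk) ((b : ℤ) : kk)
  have hinj : Function.Injective e := Cls_inj _ _ e he hea heb (by exact_mod_cast hd)
  obtain ⟨C0, c0, hc0⟩ := h3 (Dd D) e hDd0 hinj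
  have hCa : (a : FF) = RatFunc.C (e 0) * RatFunc.C (e 1) + RatFunc.C (e 0) * RatFunc.C (e 2) +
      RatFunc.C (e 1) * RatFunc.C (e 2) := by
    have h5 : (RatFunc.C ((a : ℤ) : kk) : FF) = (a : FF) := map_intCast _ _
    rw [← h5, hea, map_add, map_add, map_mul, map_mul, map_mul]
  have hCb : (b : FF) = -(RatFunc.C (e 0) * RatFunc.C (e 1) * RatFunc.C (e 2)) := by
    have h5 : (RatFunc.C ((b : ℤ) : kk) : FF) = (b : FF) := map_intCast _ _
    rw [← h5, heb, map_neg, map_mul, map_mul]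
  have hCe : (RatFunc.C (e 0) + RatFunc.C (e 1) + RatFunc.C (e 2) : FF) = 0 := by
    rw [← map_add, ← map_add, he, map_zero]
  have hprod : ∀ x : FF, x ^ 3 + (a : FF) * dd D ^ 2 * x + (b : FF) * dd D ^ 3 =
      ∏ i, (x - RatFunc.C (e i) * algebraMap kk[X] FF (Dd D)) := by
    intro x
    rw [Fin.prod_univ_three]
    change _ = (x - RatFunc.C (e 0) * dd D) * (x - RatFunc.C (e 1) * dd D) *
      (x - RatFunc.C (e 2) * dd D)
    rw [hCa, hCb]
    linear_combination (x ^ 2 * dd D) * hCe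
  have hcl : ∀ P : MK a b D, ∃ t : Fin C0 ⊕ Option (Fin 3),
      (∃ x y, IsXY P x y ∧ y ≠ 0 ∧ t = Sum.inl (c0 x)) ∨ (P = 0 ∧ t = Sum.inr none) ∨
      ∃ i, IsXY P (RatFunc.C (e i) * dd D) 0 ∧ t = Sum.inr (some i) := by
    intro P
    rcases g1 P with hP | ⟨x, y, hP⟩
    · exact ⟨Sum.inr none, Or.inr (Or.inl ⟨hP, rfl⟩)⟩
    · by_cases hy : y = 0
      · subst hy
        have h5 := (g2 P x 0 hP).2
        rw [hprod] at h5
        have h6 : ∏ i, (x - RatFunc.C (e i) * algebraMap kk[X] FF (Dd D)) = 0 := by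
          rw [← h5]; ring
        obtain ⟨i, -, hi⟩ := Finset.prod_eq_zero_iff.1 h6
        have h7 : x = RatFunc.C (e i) * dd D := sub_eq_zero.1 hi
        exact ⟨Sum.inr (some i), Or.inr (Or.inr ⟨i, h7 ▸ hP, rfl⟩)⟩
      · exact ⟨Sum.inl (c0 x), Or.inl ⟨x, y, hP, hy, rfl⟩⟩
  choose c hc using hcl
  refine ⟨Fintype.card (Fin C0 ⊕ Option (Fin 3)), fun P => Fintype.equivFin _ (c P), ?_⟩
  intro P Q hPQ
  have hPQ' : c P = c Q := (Fintype.equivFin _).injective hPQ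
  rcases hc P with ⟨x, y, hP, hy, ht⟩ | ⟨hP, ht⟩ | ⟨i, hP, ht⟩
  · rcases hc Q with ⟨x', y', hQ, hy', ht'⟩ | ⟨hQ, ht'⟩ | ⟨i', hQ, ht'⟩
    · rw [ht, ht'] at hPQ'
      have hcc : c0 x = c0 x' := Sum.inl.inj hPQ'
      have h5 := hc0 x y x' y' hy hy' (by rw [(g2 P x y hP).2, hprod])
        (by rw [(g2 Q x' y' hQ).2, hprod]) hcc
      obtain ⟨z, hz⟩ := h2 FF ((a : FF) * dd D ^ 2) ((b : FF) * dd D ^ 3)
        (fun i => RatFunc.C (e i) * dd D) two_ne_zero hdisc
        (by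
          intro i j hij
          apply hinj
          apply RatFunc.C_injective
          exact mul_right_cancel₀ hdd0 hij)
        (by
          change RatFunc.C (e 0) * dd D + RatFunc.C (e 1) * dd D + RatFunc.C (e 2) * dd D = 0
          linear_combination (dd D) * hCe)
        (by
          change (a : FF) * dd D ^ 2 = (RatFunc.C (e 0) * dd D) * (RatFunc.C (e 1) * dd D) +
            (RatFunc.C (e 0) * dd D) * (RatFunc.C (e 2) * dd D) +
            (RatFunc.C (e 1) * dd D) * (RatFunc.C (e 2) * dd D)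
          rw [hCa]; ring)
        (by
          change (b : FF) * dd D ^ 3 = -((RatFunc.C (e 0) * dd D) * (RatFunc.C (e 1) * dd D) *
            (RatFunc.C (e 2) * dd D))
          rw [hCb]; ring)
        P Q x y x' y' hP hQ hy hy' h5
      refine ⟨z - Q, ?_⟩
      have h6 : P - Q = (P + Q) - (Q + Q) := by abel
      rw [h6, hz]
      abel
    · rw [ht, ht'] at hPQ'
      exact absurd hPQ' (by simp)
    · rw [ht, ht'] at hPQ'
      exact absurd hPQ' (by simp)
  · rcases hc Q with ⟨x', y', hQ, hy', ht'⟩ | ⟨hQ, ht'⟩ | ⟨i', hQ, ht'⟩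
    · rw [ht, ht'] at hPQ'
      exact absurd hPQ' (by simp)
    · exact ⟨0, by rw [hP, hQ]; simp⟩
    · rw [ht, ht'] at hPQ'
      exact absurd hPQ' (by simp)
  · rcases hc Q with ⟨x', y', hQ, hy', ht'⟩ | ⟨hQ, ht'⟩ | ⟨i', hQ, ht'⟩
    · rw [ht, ht'] at hPQ'
      exact absurd hPQ' (by simp)
    · rw [ht, ht'] at hPQ'
      exact absurd hPQ' (by simp)
    · rw [ht, ht'] at hPQ'
      have h5 : i = i' := Option.some.inj (Sum.inr.inj hPQ')
      subst h5
      have h6 := g4 P Q _ _ hP hQ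
      exact ⟨0, by rw [h6]; simp⟩

end Pool.Agent.Lib.NagA.R
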