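import Pool.Agent.Lib.MP_60fb2a_nt.R.Spec

/-!
# MP_60fb2a_nt, directory R: the eigenvector of a twist of positive rank
-/

set_option autoImplicit false

namespace Pool.Agent.Lib.NagA.R

open Polynomial Classical

private theorem Eig_cz : CharZero FF :=
  charZero_of_injective_ringHom (RatFunc.C : kk →+* FF).injective

private theorem Eig_i : ∃ i : RatFunc ℚ →+* FF, ∀ p : ℚ[X],
    i (algebraMap ℚ[X] (RatFunc ℚ) p) = algebraMap kk[X] FF (p.map (algebraMap ℚ kk)) := by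
  have hφ : nonZeroDivisors ℚ[X] ≤
      (nonZeroDivisors kk[X]).comap (Polynomial.mapRingHom (algebraMap ℚ kk)) := by
    intro p hp
    rw [Submonoid.mem_comap, mem_nonZeroDivisors_iff_ne_zero]
    rw [mem_nonZeroDivisors_iff_ne_zero] at hp
    intro h
    apply hp
    exact (Polynomial.map_injective _ (algebraMap ℚ kk).injective) (by simpa using h)
  refine ⟨RatFunc.mapRingHom (Polynomial.mapRingHom (algebraMap ℚ kk)) hφ, ?_⟩
  intro p
  have h1 : algebraMap ℚ[X] (RatFunc ℚ) p =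
      algebraMap ℚ[X] (RatFunc ℚ) p / algebraMap ℚ[X] (RatFunc ℚ) 1 := by
    rw [map_one, div_one]
  rw [h1]
  have h2 := RatFunc.map_apply_div (Polynomial.mapRingHom (algebraMap ℚ kk)) hφ p 1
  have h3 : RatFunc.mapRingHom (Polynomial.mapRingHom (algebraMap ℚ kk)) hφ
      (algebraMap ℚ[X] (RatFunc ℚ) p / algebraMap ℚ[X] (RatFunc ℚ) 1) =
      algebraMap kk[X] FF (Polynomial.mapRingHom (algebraMap ℚ kk) p) /
      algebraMap kk[X] FF (Polynomial.mapRingHom (algebraMap ℚ kk) 1) := h2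
  rw [h3, map_one, map_one, div_one]
  rfl

private theorem Eig_mapA (A : ℤ[X]) : (A.map (Int.castRingHom ℚ)).map (algebraMap ℚ kk) =
    A.map (Int.castRingHom kk) := by
  rw [Polynomial.map_map]
  have h1 : (algebraMap ℚ kk).comp (Int.castRingHom ℚ) = Int.castRingHom kk :=
    RingHom.ext_int _ _
  rw [h1]

private theorem Eig_int (n : ℤ) : algebraMap kk[X] FF (C ((n : ℤ) : kk)) = (n : FF) := by
  rw [RatFunc.algebraMap_C]
  exact map_intCast _ _

theorem tEig (h1 : S_Grp) (h2 : S_Sig) (h3 : S_Ncs) : S_Eig := by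
  intro a b D hd hD d w hsq hw hrk
  have hcz : CharZero FF := Eig_cz
  obtain ⟨hD0, hdd0, -⟩ := h3 D hD
  have hdisc0 : (4 * a ^ 3 + 27 * b ^ 2 : FF) ≠ 0 := by exact_mod_cast hd
  have hd0 : (d : FF) ≠ 0 := by exact_mod_cast hsq.ne_zero
  have hdk : (d : kk) ≠ 0 := by exact_mod_cast hsq.ne_zero
  have hw0 : w ≠ 0 := by
    intro h
    rw [h] at hw
    exact hdk (by rw [← hw]; ring)
  have hCw0 : (RatFunc.C w : FF) ≠ 0 := (map_ne_zero_iff _ RatFunc.C_injective).2 hw0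
  have hCw : (RatFunc.C w : FF) ^ 2 = (d : FF) := by
    rw [← map_pow, hw]
    exact map_intCast _ _
  obtain ⟨i, hi⟩ := Eig_i
  obtain ⟨A0, hA0⟩ : ∃ A0 : RatFunc ℚ, A0 = algebraMap (Polynomial ℚ) (RatFunc ℚ)
    ((twA d (C a * D ^ 2)).map (Int.castRingHom ℚ)) := ⟨_, rfl⟩
  obtain ⟨B0, hB0⟩ : ∃ B0 : RatFunc ℚ, B0 = algebraMap (Polynomial ℚ) (RatFunc ℚ)
    ((twB d (C b * D ^ 3)).map (Int.castRingHom ℚ)) := ⟨_, rfl⟩
  have hiA : i A0 = (d : FF) ^ 2 * ((a : FF) * dd D ^ 2) := by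
    rw [hA0, hi, Eig_mapA, twA, Polynomial.map_mul, Polynomial.map_mul, Polynomial.map_C,
      Polynomial.map_C, Polynomial.map_pow, map_mul, map_mul, map_pow (algebraMap kk[X] FF)]
    have h4 : (Int.castRingHom kk) (d ^ 2) = ((d ^ 2 : ℤ) : kk) := rfl
    have h5 : (Int.castRingHom kk) a = ((a : ℤ) : kk) := rfl
    rw [h4, h5, Eig_int, Eig_int]
    push_cast
    rfl
  have hiB : i B0 = (d : FF) ^ 3 * ((b : FF) * dd D ^ 3) := by
    rw [hB0, hi, Eig_mapA, twB, Polynomial.map_mul, Polynomial.map_mul, Polynomial.map_C,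
      Polynomial.map_C, Polynomial.map_pow, map_mul, map_mul, map_pow (algebraMap kk[X] FF)]
    have h4 : (Int.castRingHom kk) (d ^ 3) = ((d ^ 3 : ℤ) : kk) := rfl
    have h5 : (Int.castRingHom kk) b = ((b : ℤ) : kk) := rfl
    rw [h4, h5, Eig_int, Eig_int]
    push_cast
    rfl
  have hdiscQ : 4 * A0 ^ 3 + 27 * B0 ^ 2 ≠ 0 := by
    intro h
    have h4 := congrArg i h
    rw [map_add, map_mul, map_mul, map_pow, map_pow, map_ofNat, map_ofNat, hiA, hiB,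
      map_zero] at h4
    have h5 : 4 * ((d : FF) ^ 2 * ((a : FF) * dd D ^ 2)) ^ 3 +
        27 * ((d : FF) ^ 3 * ((b : FF) * dd D ^ 3)) ^ 2 =
        (d : FF) ^ 6 * dd D ^ 6 * (4 * a ^ 3 + 27 * b ^ 2 : FF) := by ring
    rw [h5] at h4
    exact mul_ne_zero (mul_ne_zero (pow_ne_zero _ hd0) (pow_ne_zero _ hdd0)) hdisc0 h4
  have hdisc : 4 * ((a : FF) * dd D ^ 2) ^ 3 + 27 * ((b : FF) * dd D ^ 3) ^ 2 ≠ 0 := by
    have h1 : 4 * ((a : FF) * dd D ^ 2) ^ 3 + 27 * ((b : FF) * dd D ^ 3) ^ 2 =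
        dd D ^ 6 * (4 * a ^ 3 + 27 * b ^ 2 : FF) := by ring
    rw [h1]
    exact mul_ne_zero (pow_ne_zero _ hdd0) hdisc0
  -- a point of the twist with non-zero ordinate
  obtain ⟨x0, y0, hy0, heq0⟩ : ∃ x0 y0 : RatFunc ℚ, y0 ≠ 0 ∧
      y0 ^ 2 = x0 ^ 3 + A0 * x0 + B0 := by
    obtain ⟨q1, q2, -, -, -, -, q7, -, -⟩ := h1 (RatFunc ℚ) A0 B0 two_ne_zero hdiscQ
    by_contra hcon
    apply hrk
    have hall : ∀ Q : Pt A0 B0, Q + Q = 0 := by
      intro Q
      rcases q1 Q with hQ | ⟨x, y, hQ⟩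
      · rw [hQ, add_zero]
      · by_cases hy : y = 0
        · subst hy
          exact q7 Q x hQ
        · exact absurd ⟨x, y, hy, (q2 Q x y hQ).2⟩ hcon
    have hrank : Module.rank ℤ (Pt A0 B0) = 0 := by
      rw [rank_eq_zero_iff]
      intro Q
      exact ⟨2, two_ne_zero, by rw [two_smul]; exact hall Q⟩
    have hfin : Module.finrank ℤ (Pt A0 B0) = 0 := by
      rw [Module.finrank, hrank]
      exact Cardinal.zero_toNat
    rw [hA0, hB0] at hfin
    exact hfin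
  obtain ⟨g1, g2, g3, g4, g5, g6, g7, g8, -⟩ :=
    h1 FF ((a : FF) * dd D ^ 2) ((b : FF) * dd D ^ 3) two_ne_zero hdisc
  obtain ⟨x, hx⟩ : ∃ x, x = i x0 / (d : FF) := ⟨_, rfl⟩
  obtain ⟨y, hy⟩ : ∃ y, y = i y0 / ((d : FF) * RatFunc.C w) := ⟨_, rfl⟩
  have hix : i x0 = (d : FF) * x := by rw [hx]; field_simp
  have hiy : i y0 = (d : FF) * RatFunc.C w * y := by rw [hy]; field_simp
  have heq : y ^ 2 = x ^ 3 + ((a : FF) * dd D ^ 2) * x + (b : FF) * dd D ^ 3 := by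
    have h4 := congrArg i heq0
    rw [map_add, map_add, map_mul, map_pow, map_pow, hiA, hiB, hix, hiy] at h4
    have h5 : (d : FF) ^ 3 ≠ 0 := pow_ne_zero _ hd0
    apply mul_left_cancel₀ h5
    linear_combination h4 - (d : FF) ^ 2 * y ^ 2 * hCw
  have hyne : y ≠ 0 := by
    intro h
    rw [h, mul_zero] at hiy
    exact hy0 ((map_eq_zero i).1 hiy)
  obtain ⟨P, hP⟩ := g3 x y heq
  refine ⟨P, x, y, hP, ?_, ?_⟩
  · have h4 := g8 P x y ((3 * x ^ 2 + (a : FF) * dd D ^ 2) / (2 * y)) _ hP hyne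
      (by field_simp) rfl
    exact (g2 _ _ _ h4).1
  · intro σ
    obtain ⟨s1, s2, s3, s4, s5⟩ := h2 σ
    have h4 : SS σ x = x := by rw [hx, map_div₀, s4, s5 i hi]
    have h5 : SS σ y = i y0 / ((d : FF) * RatFunc.C (σ w)) := by
      rw [hy, map_div₀, map_mul, s4, s5 i hi, s1]
    refine ⟨h4, ?_, ?_⟩
    · intro h6
      rw [h5, h6, hy]
    · intro h6
      rw [h5, h6, hy, map_neg, mul_neg, div_neg]

end Pool.Agent.Lib.NagA.R
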