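import Pool.Agent.Lib.MP_60fb2a_nt.R.Spec

/-!
# MP_60fb2a_nt, directory R: the group law on `y ^ 2 = x ^ 3 + A x + B`
-/

set_option autoImplicit false

namespace Pool.Agent.Lib.NagA.R

open Polynomial Classical WeierstrassCurve

private theorem Grp_xy {F : Type} [Field F] {A B : F} {P : Pt A B} {a b x y : F}
    {h : (⟨0, 0, 0, A, B⟩ : WeierstrassCurve F).toAffine.Nonsingular a b}
    (hP : P = Affine.Point.some a b h) (hx : a = x) (hy : b = y) : IsXY P x y := by
  subst hx hy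
  exact ⟨h, hP⟩

theorem tGrp : S_Grp := by
  intro F _ A B h2 hdisc
  have ha1 : (⟨0, 0, 0, A, B⟩ : WeierstrassCurve F).toAffine.a₁ = 0 := rfl
  have ha2 : (⟨0, 0, 0, A, B⟩ : WeierstrassCurve F).toAffine.a₂ = 0 := rfl
  have ha3 : (⟨0, 0, 0, A, B⟩ : WeierstrassCurve F).toAffine.a₃ = 0 := rfl
  have ha4 : (⟨0, 0, 0, A, B⟩ : WeierstrassCurve F).toAffine.a₄ = A := rfl
  have ha6 : (⟨0, 0, 0, A, B⟩ : WeierstrassCurve F).toAffine.a₆ = B := rfl
  have hnegY : ∀ x y, (⟨0, 0, 0, A, B⟩ : WeierstrassCurve F).toAffine.negY x y = -y := by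
    intro x y
    rw [Affine.negY, ha1, ha3]
    ring
  have heq : ∀ x y, (⟨0, 0, 0, A, B⟩ : WeierstrassCurve F).toAffine.Equation x y ↔
      y ^ 2 = x ^ 3 + A * x + B := by
    intro x y
    rw [Affine.equation_iff, ha1, ha3, ha4, ha2, ha6]
    constructor <;> intro h
    · linear_combination h
    · linear_combination h
  have hns : ∀ x y, (⟨0, 0, 0, A, B⟩ : WeierstrassCurve F).toAffine.Equation x y →
      (⟨0, 0, 0, A, B⟩ : WeierstrassCurve F).toAffine.Nonsingular x y := by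
    intro x y h
    rw [Affine.nonsingular_iff]
    refine ⟨h, ?_⟩
    by_contra hcon
    push Not at hcon
    obtain ⟨h3, h4⟩ := hcon
    rw [ha1, ha4, ha2] at h3
    rw [ha1, ha3] at h4
    have hy2 : 2 * y = 0 := by linear_combination h4
    have hy : y = 0 := by
      rcases mul_eq_zero.1 hy2 with h5 | h5
      · exact absurd h5 h2
      · exact h5
    have hA : A = -3 * x ^ 2 := by linear_combination -h3
    rw [heq, hy] at h
    have hB : B = 2 * x ^ 3 := by linear_combination -h - x * hA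
    apply hdisc
    rw [hA, hB]
    ring
  have hadd : ∀ {x y x' y' : F}
      (h : (⟨0, 0, 0, A, B⟩ : WeierstrassCurve F).toAffine.Nonsingular x y)
      (h' : (⟨0, 0, 0, A, B⟩ : WeierstrassCurve F).toAffine.Nonsingular x' y')
      (hxy : ¬ (x = x' ∧ y = (⟨0, 0, 0, A, B⟩ : WeierstrassCurve F).toAffine.negY x' y'))
      (l X : F),
      (⟨0, 0, 0, A, B⟩ : WeierstrassCurve F).toAffine.slope x x' y y' = l →
      X = l ^ 2 - x - x' →
      IsXY (Affine.Point.some x y h + Affine.Point.some x' y' h' : Pt A B)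
        X (l * (x - X) - y) := by
    intro x y x' y' h h' hxy l X hl hX
    have eX : (⟨0, 0, 0, A, B⟩ : WeierstrassCurve F).toAffine.addX x x'
        ((⟨0, 0, 0, A, B⟩ : WeierstrassCurve F).toAffine.slope x x' y y') = X := by
      rw [Affine.addX, ha1, ha2, hl, hX]
      ring
    refine Grp_xy (Affine.Point.add_some hxy) eX ?_
    rw [Affine.addY, hnegY, Affine.negAddY, eX, hl]
    ring
  refine ⟨?_, ?_, ?_, ?_, ?_, ?_, ?_, ?_, ?_⟩
  · rintro (_ | ⟨x, y, h⟩)
    · exact Or.inl rfl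
    · exact Or.inr ⟨x, y, h, rfl⟩
  · rintro P x y ⟨h, rfl⟩
    exact ⟨Affine.Point.some_ne_zero h, (heq x y).1 h.1⟩
  · intro x y h
    exact ⟨.some x y (hns x y ((heq x y).2 h)), _, rfl⟩
  · rintro P Q x y ⟨h, rfl⟩ ⟨h', rfl⟩
    rfl
  · rintro P x y x' y' ⟨h, hP⟩ ⟨h', hP'⟩
    rw [hP] at hP'
    exact ⟨(Affine.Point.some.inj hP').1, (Affine.Point.some.inj hP').2⟩
  · rintro P x y ⟨h, rfl⟩
    exact Grp_xy (Affine.Point.neg_some h) rfl (hnegY x y)
  · rintro P x ⟨h, rfl⟩
    refine Affine.Point.add_self_of_Y_eq ?_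
    rw [hnegY, neg_zero]
  · rintro P x y l X ⟨h, rfl⟩ hy hl hX
    have hyne : y ≠ (⟨0, 0, 0, A, B⟩ : WeierstrassCurve F).toAffine.negY x y := by
      rw [hnegY]
      intro h3
      have h4 : 2 * y = 0 := by linear_combination h3
      rcases mul_eq_zero.1 h4 with h5 | h5
      · exact h2 h5
      · exact hy h5
    refine hadd h h (fun hh => hyne hh.2) l X ?_ ?_
    · rw [Affine.slope_of_Y_ne rfl hyne, hnegY, ha1, ha2, ha4]
      have h5 : y - -y ≠ 0 := by
        intro h6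
        apply hyne
        rw [hnegY]
        linear_combination h6
      rw [div_eq_iff h5]
      linear_combination -hl
    · rw [hX]; ring
  · rintro P Q x y x' y' l X ⟨h, rfl⟩ ⟨h', rfl⟩ hx hl hX
    refine hadd h h' (fun hh => hx hh.1) l X ?_ hX
    rw [Affine.slope_of_X_ne hx, div_eq_iff (sub_ne_zero.2 hx), hl]

end Pool.Agent.Lib.NagA.R
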