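import Pool.Agent.Lib.MP_60fb2a_nt.R.Spec

/-!
# MP_60fb2a_nt, directory R: the height function on the points
-/

set_option autoImplicit false

namespace Pool.Agent.Lib.NagA.R

open Polynomial Classical

private theorem Hgt_cz : CharZero FF :=
  charZero_of_injective_ringHom (RatFunc.C : kk →+* FF).injective

private theorem Hgt_const (a b : kk) (X : FF) (h : X ^ 3 + RatFunc.C a * X + RatFunc.C b = 0) :
    ∃ c : kk, X = RatFunc.C c := by
  have hspl : (Polynomial.X ^ 3 + C a * Polynomial.X + C b : kk[X]).Splits :=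
    IsAlgClosed.splits _
  have hmon : (Polynomial.X ^ 3 + C a * Polynomial.X + C b : kk[X]).Monic := by
    monicity!
  have h1 := hspl.eq_prod_roots_of_monic hmon
  have h2 : (Polynomial.X ^ 3 + C a * Polynomial.X + C b : kk[X]).eval₂ (RatFunc.C : kk →+* FF) X
      = 0 := by
    simp only [eval₂_add, eval₂_mul, eval₂_pow, eval₂_X, eval₂_C]
    exact h
  rw [h1, ← Polynomial.coe_eval₂RingHom, map_multiset_prod, Multiset.map_map,
    Multiset.prod_eq_zero_iff, Multiset.mem_map] at h2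
  obtain ⟨c, -, hc⟩ := h2
  refine ⟨c, ?_⟩
  simp only [Function.comp_apply, Polynomial.coe_eval₂RingHom, eval₂_sub, eval₂_X, eval₂_C] at hc
  exact sub_eq_zero.1 hc

theorem tHgt (h1 : S_Grp) (h2 : S_Ht) (h3 : S_Ncs) : S_Hgt := by
  intro a b D hd hD
  have hcz : CharZero FF := Hgt_cz
  obtain ⟨hD0, hdd0, hncs⟩ := h3 D hD
  have hdisc : 4 * ((a : FF) * dd D ^ 2) ^ 3 + 27 * ((b : FF) * dd D ^ 3) ^ 2 ≠ 0 := by
    have h1 : 4 * ((a : FF) * dd D ^ 2) ^ 3 + 27 * ((b : FF) * dd D ^ 3) ^ 2 =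
        dd D ^ 6 * ((4 * a ^ 3 + 27 * b ^ 2 : ℤ) : FF) := by push_cast; ring
    rw [h1]
    refine mul_ne_zero (pow_ne_zero _ hdd0) ?_
    exact_mod_cast hd
  obtain ⟨g1, g2, g3, g4, g5, g6, g7, g8, -⟩ :=
    h1 FF ((a : FF) * dd D ^ 2) ((b : FF) * dd D ^ 3) two_ne_zero hdisc
  obtain ⟨t1, t2, t3⟩ := h2 kk
  have hCa : (RatFunc.C ((a : ℤ) : kk) : FF) = (a : FF) := map_intCast _ _
  have hCb : (RatFunc.C ((b : ℤ) : kk) : FF) = (b : FF) := map_intCast _ _
  have hh : ∀ P : MK a b D, ∃ n : ℕ, (P = 0 → n = 0) ∧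
      ∀ x y, IsXY P x y → n = ht (x / dd D) := by
    intro P
    rcases g1 P with hP | ⟨x, y, hP⟩
    · exact ⟨0, fun _ => rfl, fun x y hxy => absurd hP (g2 P x y hxy).1⟩
    · refine ⟨ht (x / dd D), fun h0 => absurd h0 (g2 P x y hP).1, fun x' y' hP' => ?_⟩
      rw [(g5 P x y x' y' hP hP').1]
  choose h hh0 hhx using hh
  -- the equation in terms of `X = x / D`
  have heqn : ∀ (P : MK a b D) (x y : FF), IsXY P x y → y ^ 2 = dd D ^ 3 *
      ((x / dd D) ^ 3 + (a : FF) * (x / dd D) + (b : FF)) := by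
    intro P x y hP
    rw [(g2 P x y hP).2]
    field_simp
  refine ⟨h, ?_, ?_⟩
  · intro P
    rcases g1 P with hP | ⟨x, y, hP⟩
    · subst hP
      rw [add_zero, hh0 0 rfl]
    · by_cases hy : y = 0
      · subst hy
        rw [g7 P x hP, hh0 0 rfl, hhx P x 0 hP]
        have h4 := heqn P x 0 hP
        have h5 : (x / dd D) ^ 3 + (RatFunc.C ((a : ℤ) : kk) : FF) * (x / dd D) +
            (RatFunc.C ((b : ℤ) : kk) : FF) = 0 := by
          rw [hCa, hCb]
          have h6 : dd D ^ 3 * ((x / dd D) ^ 3 + (a : FF) * (x / dd D) + (b : FF)) = 0 := by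
            rw [← h4]; ring
          rcases mul_eq_zero.1 h6 with h7 | h7
          · exact absurd h7 (pow_ne_zero _ hdd0)
          · exact h7
        obtain ⟨c, hc⟩ := Hgt_const _ _ _ h5
        rw [hc, t2 c]
      · obtain ⟨X, hX⟩ : ∃ X, X = x / dd D := ⟨_, rfl⟩
        have hx : x = dd D * X := by rw [hX]; field_simp
        have h4 := heqn P x y hP
        rw [← hX] at h4
        have hf0 : X ^ 3 + (a : FF) * X + (b : FF) ≠ 0 := by
          intro h5
          rw [h5, mul_zero] at h4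
          exact hy (pow_eq_zero_iff two_ne_zero |>.1 h4)
        obtain ⟨l, hl⟩ : ∃ l, l = (3 * x ^ 2 + (a : FF) * dd D ^ 2) / (2 * y) := ⟨_, rfl⟩
        have hl1 : 2 * l * y = 3 * x ^ 2 + (a : FF) * dd D ^ 2 := by
          rw [hl]; field_simp
        obtain ⟨Z, hZ⟩ : ∃ Z, Z = l ^ 2 - 2 * x := ⟨_, rfl⟩
        have h5 := g8 P x y l Z hP hy hl1 hZ
        rw [hhx _ _ _ h5, hhx P x y hP, ← hX]
        have h6 := t3 ((a : ℤ) : kk) ((b : ℤ) : kk) two_ne_zero (by exact_mod_cast hd) X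
          (by rw [hCa, hCb]; exact hf0)
        rw [hCa, hCb] at h6
        rw [← h6]
        congr 1
        have hl2 : l ^ 2 * (4 * (dd D ^ 3 * (X ^ 3 + (a : FF) * X + (b : FF)))) =
            (3 * x ^ 2 + (a : FF) * dd D ^ 2) ^ 2 := by
          rw [← h4, ← hl1]; ring
        have hden : (4 * (X ^ 3 + (a : FF) * X + (b : FF))) ≠ 0 :=
          mul_ne_zero (by norm_num) hf0
        rw [div_eq_div_iff hdd0 hden, hZ]
        have hD3 : dd D ^ 3 ≠ 0 := pow_ne_zero _ hdd0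
        apply mul_left_cancel₀ hD3
        rw [hx] at hl2 ⊢
        linear_combination hl2
  · intro P hP0
    rcases g1 P with hP | ⟨x, y, hP⟩
    · rw [hP, add_zero]
    · rw [hhx P x y hP] at hP0
      obtain ⟨c, hc⟩ := t1 _ hP0
      have h4 := heqn P x y hP
      rw [hc, ← hCa, ← hCb, ← map_pow, ← map_mul, ← map_add, ← map_add] at h4
      have h5 := hncs _ y h4
      subst h5
      exact g7 P x hP

end Pool.Agent.Lib.NagA.R
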