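import Pool.Agent.Lib.MP_60fb2a_nt.R.Spec

/-!
# MP_60fb2a_nt, directory R: the height of the duplication map
-/

set_option autoImplicit false

namespace Pool.Agent.Lib.NagA.R

open Polynomial Classical

private theorem Ht_frac {k : Type} [Field k] (u v : k[X]) (hv : v ≠ 0) (huv : IsCoprime u v) :
    ht (algebraMap k[X] (RatFunc k) u / algebraMap k[X] (RatFunc k) v) =
      max u.natDegree v.natDegree := by
  set x := algebraMap k[X] (RatFunc k) u / algebraMap k[X] (RatFunc k) v with hx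
  have h1 : x.num * v = u * x.denom := (RatFunc.num_mul_eq_mul_denom_iff hv).2 hx
  have h2 : IsCoprime x.num x.denom := RatFunc.isCoprime_num_denom x
  have h3 : x.num ∣ u := h2.dvd_of_dvd_mul_right ⟨v, h1.symm⟩
  have h4 : u ∣ x.num := huv.dvd_of_dvd_mul_right ⟨x.denom, h1⟩
  have h5 : x.denom ∣ v := by
    refine h2.symm.dvd_of_dvd_mul_left ⟨u, ?_⟩
    rw [h1]; ring
  have h6 : v ∣ x.denom := by
    refine huv.symm.dvd_of_dvd_mul_left ⟨x.num, ?_⟩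
    rw [← h1]; ring
  have h7 : x.num.natDegree = u.natDegree :=
    natDegree_eq_of_degree_eq (degree_eq_degree_of_associated (associated_of_dvd_dvd h3 h4))
  have h8 : x.denom.natDegree = v.natDegree :=
    natDegree_eq_of_degree_eq (degree_eq_degree_of_associated (associated_of_dvd_dvd h5 h6))
  rw [ht, h7, h8]

private theorem Ht_poly {k : Type} [Field k] (a b : k) (h2 : (2 : k) ≠ 0)
    (hδ : 4 * a ^ 3 + 27 * b ^ 2 ≠ 0) (p q F G : k[X]) (hpq : IsCoprime p q)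
    (hF : F = (p ^ 2 - C a * q ^ 2) ^ 2 - 8 * C b * p * q ^ 3)
    (hG : G = 4 * q * (p ^ 3 + C a * p * q ^ 2 + C b * q ^ 3)) :
    IsCoprime F G ∧ max F.natDegree G.natDegree = 4 * max p.natDegree q.natDegree := by
  set H := max p.natDegree q.natDegree with hH
  have hδ4 : (4 * (4 * a ^ 3 + 27 * b ^ 2) : k) ≠ 0 := by
    have h4 : (4 : k) ≠ 0 := by
      have h3 : (4 : k) = 2 * 2 := by norm_num
      rw [h3]
      exact mul_ne_zero h2 h2
    exact mul_ne_zero h4 hδ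
  have hm : ∀ (c : k) (i j n : ℕ), i + j = n → (C c * p ^ i * q ^ j).natDegree ≤ n * H := by
    intro c i j n hij
    have h3 : (C c * p ^ i * q ^ j).natDegree ≤ i * p.natDegree + j * q.natDegree := by
      refine le_trans natDegree_mul_le (add_le_add ?_ natDegree_pow_le)
      exact le_trans (natDegree_C_mul_le _ _) natDegree_pow_le
    have h4 : i * p.natDegree ≤ i * H := Nat.mul_le_mul_left _ (le_max_left _ _)
    have h5 : j * q.natDegree ≤ j * H := Nat.mul_le_mul_left _ (le_max_right _ _)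
    have h6 : n * H = i * H + j * H := by rw [← hij]; ring
    omega
  have hadd : ∀ (n : ℕ) (f g : k[X]), f.natDegree ≤ n → g.natDegree ≤ n →
      (f + g).natDegree ≤ n := fun n f g hf hg => natDegree_add_le_of_degree_le hf hg
  have hFe : F = C 1 * p ^ 4 * q ^ 0 + C (-2 * a) * p ^ 2 * q ^ 2 + C (a ^ 2) * p ^ 0 * q ^ 4 +
      C (-8 * b) * p ^ 1 * q ^ 3 := by
    rw [hF]
    simp only [map_mul, map_neg, map_pow, map_ofNat, map_one]
    ring
  have hGe : G = C 4 * p ^ 3 * q ^ 1 + C (4 * a) * p ^ 1 * q ^ 3 + C (4 * b) * p ^ 0 * q ^ 4 := by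
    rw [hG]
    simp only [map_mul, map_ofNat]
    ring
  have hFd : F.natDegree ≤ 4 * H := by
    rw [hFe]
    exact hadd _ _ _ (hadd _ _ _ (hadd _ _ _ (hm _ _ _ _ rfl) (hm _ _ _ _ rfl))
      (hm _ _ _ _ rfl)) (hm _ _ _ _ rfl)
  have hGd : G.natDegree ≤ 4 * H := by
    rw [hGe]
    exact hadd _ _ _ (hadd _ _ _ (hm _ _ _ _ rfl) (hm _ _ _ _ rfl)) (hm _ _ _ _ rfl)
  obtain ⟨U1, hU1⟩ : ∃ U1 : k[X], U1 = C 0 * p ^ 3 * q ^ 0 + C 12 * p ^ 2 * q ^ 1 +
    C (16 * a) * p ^ 0 * q ^ 3 := ⟨_, rfl⟩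
  obtain ⟨V1, hV1⟩ : ∃ V1 : k[X], V1 = C (-3) * p ^ 3 * q ^ 0 + C (5 * a) * p ^ 1 * q ^ 2 +
    C (27 * b) * p ^ 0 * q ^ 3 := ⟨_, rfl⟩
  obtain ⟨U2, hU2⟩ : ∃ U2 : k[X], U2 = C (4 * (4 * a ^ 3 + 27 * b ^ 2)) * p ^ 3 * q ^ 0 +
    C (-4 * a ^ 2 * b) * p ^ 2 * q ^ 1 + C (4 * a * (3 * a ^ 3 + 22 * b ^ 2)) * p ^ 1 * q ^ 2 +
    C (12 * b * (a ^ 3 + 8 * b ^ 2)) * p ^ 0 * q ^ 3 := ⟨_, rfl⟩
  obtain ⟨V2, hV2⟩ : ∃ V2 : k[X], V2 = C (a ^ 2 * b) * p ^ 3 * q ^ 0 +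
    C (a * (5 * a ^ 3 + 32 * b ^ 2)) * p ^ 2 * q ^ 1 +
    C (2 * b * (13 * a ^ 3 + 96 * b ^ 2)) * p ^ 1 * q ^ 2 +
    C (-3 * a ^ 2 * (a ^ 3 + 8 * b ^ 2)) * p ^ 0 * q ^ 3 := ⟨_, rfl⟩
  have hI1 : U1 * F + V1 * G = C (4 * (4 * a ^ 3 + 27 * b ^ 2)) * q ^ 7 := by
    rw [hU1, hV1, hF, hG]
    simp only [map_mul, map_neg, map_pow, map_ofNat, map_add, map_zero]
    ring
  have hI2 : U2 * F + V2 * G = C (4 * (4 * a ^ 3 + 27 * b ^ 2)) * p ^ 7 := by
    rw [hU2, hV2, hF, hG]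
    simp only [map_mul, map_neg, map_pow, map_ofNat, map_add]
    ring
  have hU1d : U1.natDegree ≤ 3 * H := by
    rw [hU1]
    exact hadd _ _ _ (hadd _ _ _ (hm _ _ _ _ rfl) (hm _ _ _ _ rfl)) (hm _ _ _ _ rfl)
  have hV1d : V1.natDegree ≤ 3 * H := by
    rw [hV1]
    exact hadd _ _ _ (hadd _ _ _ (hm _ _ _ _ rfl) (hm _ _ _ _ rfl)) (hm _ _ _ _ rfl)
  have hU2d : U2.natDegree ≤ 3 * H := by
    rw [hU2]
    exact hadd _ _ _ (hadd _ _ _ (hadd _ _ _ (hm _ _ _ _ rfl) (hm _ _ _ _ rfl))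
      (hm _ _ _ _ rfl)) (hm _ _ _ _ rfl)
  have hV2d : V2.natDegree ≤ 3 * H := by
    rw [hV2]
    exact hadd _ _ _ (hadd _ _ _ (hadd _ _ _ (hm _ _ _ _ rfl) (hm _ _ _ _ rfl))
      (hm _ _ _ _ rfl)) (hm _ _ _ _ rfl)
  refine ⟨?_, ?_⟩
  · obtain ⟨α, β, hαβ⟩ : IsCoprime (p ^ 7) (q ^ 7) := hpq.pow
    have hu : C ((4 * (4 * a ^ 3 + 27 * b ^ 2))⁻¹ : k) * C (4 * (4 * a ^ 3 + 27 * b ^ 2)) = 1 := by
      rw [← C_mul, inv_mul_cancel₀ hδ4, C_1]
    refine ⟨C ((4 * (4 * a ^ 3 + 27 * b ^ 2))⁻¹) * (α * U2 + β * U1),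
      C ((4 * (4 * a ^ 3 + 27 * b ^ 2))⁻¹) * (α * V2 + β * V1), ?_⟩
    calc C ((4 * (4 * a ^ 3 + 27 * b ^ 2))⁻¹) * (α * U2 + β * U1) * F +
        C ((4 * (4 * a ^ 3 + 27 * b ^ 2))⁻¹) * (α * V2 + β * V1) * G =
        C ((4 * (4 * a ^ 3 + 27 * b ^ 2))⁻¹) * (α * (U2 * F + V2 * G) + β * (U1 * F + V1 * G)) := by
          ring
      _ = (C ((4 * (4 * a ^ 3 + 27 * b ^ 2))⁻¹ : k) * C (4 * (4 * a ^ 3 + 27 * b ^ 2))) *
          (α * p ^ 7 + β * q ^ 7) := by rw [hI1, hI2]; ring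
      _ = 1 := by rw [hu, hαβ, one_mul]
  · refine le_antisymm (max_le hFd hGd) ?_
    by_contra hlt
    push Not at hlt
    have hlF : F.natDegree < 4 * H := lt_of_le_of_lt (le_max_left _ _) hlt
    have hlG : G.natDegree < 4 * H := lt_of_le_of_lt (le_max_right _ _) hlt
    have hq : 7 * q.natDegree ≤ 7 * H - 1 := by
      have h3 : (U1 * F + V1 * G).natDegree ≤ 7 * H - 1 := by
        refine hadd _ _ _ (le_trans natDegree_mul_le ?_) (le_trans natDegree_mul_le ?_) <;> omega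
      rw [hI1, natDegree_C_mul hδ4, natDegree_pow] at h3
      exact h3
    have hp : 7 * p.natDegree ≤ 7 * H - 1 := by
      have h3 : (U2 * F + V2 * G).natDegree ≤ 7 * H - 1 := by
        refine hadd _ _ _ (le_trans natDegree_mul_le ?_) (le_trans natDegree_mul_le ?_) <;> omega
      rw [hI2, natDegree_C_mul hδ4, natDegree_pow] at h3
      exact h3
    omega

theorem tHt : S_Ht := by
  intro k _
  refine ⟨?_, ?_, ?_⟩
  · intro X hX
    have hn : X.num.natDegree = 0 := by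
      have := le_max_left X.num.natDegree X.denom.natDegree
      rw [ht] at hX
      omega
    have hd : X.denom.natDegree = 0 := by
      have := le_max_right X.num.natDegree X.denom.natDegree
      rw [ht] at hX
      omega
    have hd1 : X.denom = 1 := eq_one_of_monic_natDegree_zero (RatFunc.monic_denom X) hd
    refine ⟨X.num.coeff 0, ?_⟩
    have h1 := RatFunc.num_div_denom X
    rw [hd1, map_one, div_one, eq_C_of_natDegree_eq_zero hn] at h1
    rw [← h1, RatFunc.algebraMap_C]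
    simp
  · intro c
    rw [ht, RatFunc.num_C, RatFunc.denom_C, natDegree_C, natDegree_one, max_self]
  · intro a b h2 hδ X hX
    have hq0 : X.denom ≠ 0 := RatFunc.denom_ne_zero X
    obtain ⟨F, hF⟩ : ∃ F : k[X], F = (X.num ^ 2 - C a * X.denom ^ 2) ^ 2 -
      8 * C b * X.num * X.denom ^ 3 := ⟨_, rfl⟩
    obtain ⟨G, hG⟩ : ∃ G : k[X], G = 4 * X.denom * (X.num ^ 3 + C a * X.num * X.denom ^ 2 +
      C b * X.denom ^ 3) := ⟨_, rfl⟩
    obtain ⟨hcop, hdeg⟩ := Ht_poly a b h2 hδ X.num X.denom F G (RatFunc.isCoprime_num_denom X) hF hG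
    set P := algebraMap k[X] (RatFunc k) X.num with hP
    set Q := algebraMap k[X] (RatFunc k) X.denom with hQ
    have hQ0 : Q ≠ 0 := by
      rw [hQ]
      exact (map_ne_zero_iff _ (RatFunc.algebraMap_injective k)).2 hq0
    have hXe : X = P / Q := (RatFunc.num_div_denom X).symm
    have hFm : algebraMap k[X] (RatFunc k) F = (P ^ 2 - RatFunc.C a * Q ^ 2) ^ 2 -
        8 * RatFunc.C b * P * Q ^ 3 := by
      rw [hF]
      simp only [map_sub, map_mul, map_pow, map_ofNat, RatFunc.algebraMap_C]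
      rfl
    have hGm : algebraMap k[X] (RatFunc k) G = 4 * Q * (P ^ 3 + RatFunc.C a * P * Q ^ 2 +
        RatFunc.C b * Q ^ 3) := by
      rw [hG]
      simp only [map_add, map_mul, map_pow, map_ofNat, RatFunc.algebraMap_C]
      rfl
    have h4 : (4 : RatFunc k) ≠ 0 := by
      have h3 : (4 : RatFunc k) = RatFunc.C (2 * 2 : k) := by
        rw [map_mul, map_ofNat]; norm_num
      rw [h3]
      exact (map_ne_zero_iff _ RatFunc.C_injective).2 (mul_ne_zero h2 h2)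
    have hcub : P ^ 3 + RatFunc.C a * P * Q ^ 2 + RatFunc.C b * Q ^ 3 =
        Q ^ 3 * (X ^ 3 + RatFunc.C a * X + RatFunc.C b) := by
      conv_rhs => rw [hXe]
      field_simp
    have hGm0 : algebraMap k[X] (RatFunc k) G ≠ 0 := by
      rw [hGm, hcub]
      exact mul_ne_zero (mul_ne_zero h4 hQ0) (mul_ne_zero (pow_ne_zero _ hQ0) hX)
    have hG0 : G ≠ 0 := by
      intro hh
      rw [hh, map_zero] at hGm0
      exact hGm0 rfl
    have hfun : ((X ^ 2 - RatFunc.C a) ^ 2 - 8 * RatFunc.C b * X) /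
        (4 * (X ^ 3 + RatFunc.C a * X + RatFunc.C b)) =
        algebraMap k[X] (RatFunc k) F / algebraMap k[X] (RatFunc k) G := by
      rw [div_eq_div_iff (mul_ne_zero h4 hX) hGm0, hFm, hGm, hcub]
      have h5 : (P ^ 2 - RatFunc.C a * Q ^ 2) ^ 2 - 8 * RatFunc.C b * P * Q ^ 3 =
          Q ^ 4 * ((X ^ 2 - RatFunc.C a) ^ 2 - 8 * RatFunc.C b * X) := by
        conv_rhs => rw [hXe]
        field_simp
      rw [h5]
      ring
    rw [hfun, Ht_frac F G hG0 hcop, hdeg, ht]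

end Pool.Agent.Lib.NagA.R
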