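import Pool.Agent.Lib.MP_60fb2a_nt.R.Spec

/-!
# MP_60fb2a_nt, directory R: a ring homomorphism which fixes the coefficients acts on the points
-/

set_option autoImplicit false

namespace Pool.Agent.Lib.NagA.R

open Polynomial Classical WeierstrassCurve

private theorem Map_aux (F : Type) [Field F] (s : F →+* F) (R : Subring F) (f : F →ₐ[R] F)
    (hf : ∀ x, f x = s x) (W' : WeierstrassCurve R) (W : WeierstrassCurve F) (hW : W'⁄F = W) :
    ∃ g : W.toAffine.Point →+ W.toAffine.Point, ∀ (P : W.toAffine.Point) (x y : F),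
      (∃ h : W.toAffine.Nonsingular x y, P = Affine.Point.some x y h) →
      ∃ h' : W.toAffine.Nonsingular (s x) (s y), g P = Affine.Point.some (s x) (s y) h' := by
  subst hW
  refine ⟨Affine.Point.map (W' := W'.toAffine) f, ?_⟩
  rintro P x y ⟨h, rfl⟩
  obtain ⟨x', hx'⟩ : ∃ x', x' = f x := ⟨_, rfl⟩
  obtain ⟨y', hy'⟩ : ∃ y', y' = f y := ⟨_, rfl⟩
  rw [← hf x, ← hf y]
  exact ⟨_, Affine.Point.map_some f h⟩

theorem tMap : S_Map := by
  intro F _ A B s hA hB
  let R : Subring F := RingHom.eqLocus s (RingHom.id F)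
  let f : F →ₐ[R] F := { toRingHom := s, commutes' := fun r => r.2 }
  let W' : WeierstrassCurve R := ⟨0, 0, 0, ⟨A, hA⟩, ⟨B, hB⟩⟩
  exact Map_aux F s R f (fun _ => rfl) W' ⟨0, 0, 0, A, B⟩ rfl

end Pool.Agent.Lib.NagA.R
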