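import Pool.Agent.Lib.MP_60fb2a_nt.R.Spec

/-!
# MP_60fb2a_nt, directory R: `D` is no constant times a square over the algebraic closure
-/

set_option autoImplicit false

namespace Pool.Agent.Lib.NagA.R

open Polynomial Classical

private theorem Ncs_alg (K : Type) [Field K] (a1 a2 : Algebra ℚ K)
    (h : @IsGalois ℚ _ K _ a1) : @IsGalois ℚ _ K _ a2 := by
  have h1 : a1 = a2 := Subsingleton.elim _ _
  subst h1
  exact h

private theorem Ncs_gal : IsGalois ℚ kk :=
  Ncs_alg kk (@AlgebraicClosure.instAlgebra ℚ _ ℚ _ (Algebra.id ℚ)) _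
    (@IsAlgClosure.isGalois ℚ (AlgebraicClosure ℚ) _ _
      (@AlgebraicClosure.instAlgebra ℚ _ ℚ _ (Algebra.id ℚ)) inferInstance inferInstance)

private theorem Ncs_fix (x : kk) (h : ∀ σ : kk ≃ₐ[ℚ] kk, σ x = x) :
    ∃ q : ℚ, algebraMap ℚ kk q = x := by
  have hg : IsGalois ℚ kk := Ncs_gal
  have h1 : x ∈ (⊥ : IntermediateField ℚ kk) := (InfiniteGalois.mem_bot_iff_fixed x).2 h
  rw [IntermediateField.mem_bot] at h1
  exact h1

theorem tNcs : S_Ncs := by
  intro D hD
  have hD0 : D ≠ 0 := by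
    intro h
    apply hD 0 0
    rw [h]; simp
  have hinjc : Function.Injective (Int.castRingHom kk) := by
    intro a b h
    simpa using h
  have hDd0 : Dd D ≠ 0 := by
    rw [Dd]
    exact (Polynomial.map_ne_zero_iff hinjc).2 hD0
  have hdd0 : dd D ≠ 0 := by
    rw [dd]
    exact (map_ne_zero_iff _ (RatFunc.algebraMap_injective kk)).2 hDd0
  refine ⟨hD0, hdd0, ?_⟩
  intro c y hy
  by_contra hy0
  have hc0 : c ≠ 0 := by
    intro h
    rw [h, map_zero, mul_zero] at hy
    exact hy0 (pow_eq_zero_iff two_ne_zero |>.1 hy)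
  obtain ⟨w, hw⟩ : ∃ w : kk, w ^ 2 = c := IsAlgClosed.exists_pow_nat_eq c two_pos
  have hw0 : w ≠ 0 := by
    intro h
    rw [h] at hw
    exact hc0 (by rw [← hw]; ring)
  have hCw : (RatFunc.C w : FF) ≠ 0 := (map_ne_zero_iff _ RatFunc.C_injective).2 hw0
  have hv : (y / (dd D * RatFunc.C w)) ^ 2 = dd D := by
    rw [div_pow, hy, ← hw, map_pow]
    field_simp
  have hint : IsIntegral kk[X] ((y / (dd D * RatFunc.C w)) ^ 2) := by
    rw [hv, dd]
    exact isIntegral_algebraMap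
  obtain ⟨g, hg⟩ : ∃ g : kk[X], algebraMap kk[X] FF g = y / (dd D * RatFunc.C w) :=
    IsIntegrallyClosed.exists_algebraMap_eq_of_isIntegral_pow two_pos hint
  have hg2 : g ^ 2 = Dd D := by
    apply RatFunc.algebraMap_injective kk
    rw [map_pow]
    change (algebraMap kk[X] FF g) ^ 2 = dd D
    rw [hg, hv]
  have hg0 : g ≠ 0 := by
    intro h
    rw [h] at hg2
    exact hDd0 (by rw [← hg2]; ring)
  have hl0 : g.leadingCoeff ≠ 0 := leadingCoeff_ne_zero.2 hg0
  obtain ⟨g1, hg1⟩ : ∃ g1 : kk[X], g1 = C (g.leadingCoeff⁻¹) * g := ⟨_, rfl⟩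
  have hg1m : g1.Monic := by
    rw [Monic, hg1, leadingCoeff_mul, leadingCoeff_C, inv_mul_cancel₀ hl0]
  have hlead : (g.leadingCoeff) ^ 2 = ((D.leadingCoeff : ℤ) : kk) := by
    rw [← leadingCoeff_pow, hg2, Dd, leadingCoeff_map_of_injective hinjc]
    simp
  have hDg : Dd D = C ((D.leadingCoeff : ℤ) : kk) * g1 ^ 2 := by
    rw [← hlead, hg1, mul_pow, ← mul_assoc, ← C_pow, ← C_mul, ← mul_pow,
      mul_inv_cancel₀ hl0, one_pow, C_1, one_mul, hg2]
  have hm0 : ((D.leadingCoeff : ℤ) : kk) ≠ 0 := by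
    rw [← hlead]; exact pow_ne_zero _ hl0
  have hσ : ∀ σ : kk ≃ₐ[ℚ] kk, g1.map (σ : kk →+* kk) = g1 := by
    intro σ
    have h1 : (Dd D).map (σ : kk →+* kk) = Dd D := by
      rw [Dd, Polynomial.map_map]
      have h2 : (σ : kk →+* kk).comp (Int.castRingHom kk) = Int.castRingHom kk :=
        RingHom.ext_int _ _
      rw [h2]
    have h2 : (g1.map (σ : kk →+* kk)) ^ 2 = g1 ^ 2 := by
      rw [hDg, Polynomial.map_mul, Polynomial.map_pow, Polynomial.map_C] at h1
      have h3 : (σ : kk →+* kk) ((D.leadingCoeff : ℤ) : kk) = ((D.leadingCoeff : ℤ) : kk) :=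
        map_intCast _ _
      rw [h3] at h1
      exact mul_left_cancel₀ (C_ne_zero.2 hm0) h1
    rcases sq_eq_sq_iff_eq_or_eq_neg.mp h2 with h3 | h3
    · exact h3
    · exfalso
      have h4 : (g1.map (σ : kk →+* kk)).leadingCoeff = 1 := hg1m.map _
      rw [h3, leadingCoeff_neg, hg1m.leadingCoeff] at h4
      have h5 : (2 : kk) = 0 := by linear_combination -h4
      exact two_ne_zero h5
  have hcoef : ∀ n, ∃ q : ℚ, algebraMap ℚ kk q = g1.coeff n := by
    intro n
    apply Ncs_fix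
    intro σ
    have h1 := congrArg (fun p => p.coeff n) (hσ σ)
    simp only [coeff_map] at h1
    exact h1
  have hlift : g1 ∈ lifts (algebraMap ℚ kk) := by
    rw [lifts_iff_coeff_lifts]
    intro n
    exact hcoef n
  obtain ⟨g2, hg2'⟩ := (mem_lifts g1).1 hlift
  apply hD (D.leadingCoeff : ℚ) g2
  apply Polynomial.map_injective (algebraMap ℚ kk) (algebraMap ℚ kk).injective
  rw [Polynomial.map_mul, Polynomial.map_pow, hg2', Polynomial.map_C, Polynomial.map_map]
  have h1 : (algebraMap ℚ kk).comp (Int.castRingHom ℚ) = Int.castRingHom kk :=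
    RingHom.ext_int _ _
  rw [h1, map_intCast]
  exact hDg

end Pool.Agent.Lib.NagA.R
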