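import Pool.Agent.Lib.MP_60fb2a_nt.R.Spec

/-!
# MP_60fb2a_nt, directory R: the finite set of classes
-/

set_option autoImplicit false

namespace Pool.Agent.Lib.NagA.R

open Polynomial Classical

private theorem Par_sq (p : kk[X]) (h : ∀ r, Even (rootMultiplicity r p)) :
    ∃ s : kk[X], p = s ^ 2 := by
  obtain ⟨w, hw⟩ : ∃ w : kk, w ^ 2 = p.leadingCoeff :=
    IsAlgClosed.exists_pow_nat_eq _ two_pos
  choose k hk using h
  have h1 : p = C p.leadingCoeff * (p.roots.map (fun a => X - C a)).prod :=
    (IsAlgClosed.splits p).eq_prod_roots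
  rw [Finset.prod_multiset_map_count] at h1
  refine ⟨C w * ∏ r ∈ p.roots.toFinset, (X - C r) ^ (k r), ?_⟩
  rw [mul_pow, ← C_pow, hw, ← Finset.prod_pow]
  conv_lhs => rw [h1]
  congr 1
  refine Finset.prod_congr rfl ?_
  intro r _
  rw [count_roots, hk r, ← pow_mul]
  congr 1
  ring

private theorem Par_even (D : kk[X]) (e : Fin 3 → kk) (he : Function.Injective e) (p q : kk[X])
    (hpq : IsCoprime p q) (H : kk[X]) (hH : H ^ 2 = q * ∏ i, (p - C (e i) * D * q))
    (hH0 : H ≠ 0) (i : Fin 3) (r : kk) (hr : D.eval r ≠ 0) :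
    Even (rootMultiplicity r (q * (p - C (e i) * D * q))) := by
  by_cases hroot : IsRoot (q * (p - C (e i) * D * q)) r
  · have hG : H ^ 2 = (q * (p - C (e i) * D * q)) *
        ∏ j ∈ Finset.univ.erase i, (p - C (e j) * D * q) := by
      rw [hH, mul_assoc, Finset.mul_prod_erase Finset.univ (fun j => p - C (e j) * D * q)
        (Finset.mem_univ i)]
    have hK : ¬ IsRoot (∏ j ∈ Finset.univ.erase i, (p - C (e j) * D * q)) r := by
      rw [IsRoot, eval_prod, Finset.prod_eq_zero_iff]
      rintro ⟨j, hj, hj0⟩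
      have hji : j ≠ i := (Finset.mem_erase.1 hj).1
      have hbez : ¬ (p.eval r = 0 ∧ q.eval r = 0) := by
        rintro ⟨h1, h2⟩
        obtain ⟨u, v, huv⟩ := hpq
        have h3 := congrArg (fun f => f.eval r) huv
        simp [h1, h2] at h3
      simp only [eval_sub, eval_mul, eval_C] at hj0
      rw [IsRoot] at hroot
      simp only [eval_sub, eval_mul, eval_C] at hroot
      rcases mul_eq_zero.1 hroot with h1 | h1
      · apply hbez
        refine ⟨?_, h1⟩
        rw [h1] at hj0
        linear_combination hj0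
      · have h2 : (e i - e j) * (D.eval r * q.eval r) = 0 := by linear_combination hj0 - h1
        rcases mul_eq_zero.1 h2 with h3 | h3
        · exact hji (he (sub_eq_zero.1 h3)).symm
        · rcases mul_eq_zero.1 h3 with h4 | h4
          · exact hr h4
          · apply hbez
            refine ⟨?_, h4⟩
            rw [h4] at h1
            linear_combination h1
    have h1 : rootMultiplicity r (H ^ 2) = rootMultiplicity r H + rootMultiplicity r H := by
      rw [sq, rootMultiplicity_mul (mul_ne_zero hH0 hH0)]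
    have h2 : rootMultiplicity r (H ^ 2) =
        rootMultiplicity r (q * (p - C (e i) * D * q)) + 0 := by
      rw [hG, rootMultiplicity_mul (by rw [← hG]; exact pow_ne_zero _ hH0),
        rootMultiplicity_eq_zero hK]
    exact ⟨rootMultiplicity r H, by omega⟩
  · rw [rootMultiplicity_eq_zero hroot]
    exact Even.zero

private theorem Par_fun (D : kk[X]) (e : Fin 3 → kk) (he : Function.Injective e) (x y : FF)
    (hy : y ≠ 0) (hxy : y ^ 2 = ∏ i, (x - RatFunc.C (e i) * algebraMap kk[X] FF D)) (i : Fin 3) :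
    x - RatFunc.C (e i) * algebraMap kk[X] FF D =
      algebraMap kk[X] FF (x.denom * (x.num - C (e i) * D * x.denom)) /
        (algebraMap kk[X] FF x.denom) ^ 2 ∧
    algebraMap kk[X] FF x.denom ≠ 0 ∧
    x.denom * (x.num - C (e i) * D * x.denom) ≠ 0 ∧
    ∀ r, D.eval r ≠ 0 →
      Even (rootMultiplicity r (x.denom * (x.num - C (e i) * D * x.denom))) := by
  have hq0 : algebraMap kk[X] FF x.denom ≠ 0 :=
    (map_ne_zero_iff _ (RatFunc.algebraMap_injective kk)).2 (RatFunc.denom_ne_zero x)
  have hx : x = algebraMap kk[X] FF x.num / algebraMap kk[X] FF x.denom :=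
    (RatFunc.num_div_denom x).symm
  have hmap : ∀ i, algebraMap kk[X] FF (x.num - C (e i) * D * x.denom) =
      algebraMap kk[X] FF x.denom * (x - RatFunc.C (e i) * algebraMap kk[X] FF D) := by
    intro i
    have h1 : algebraMap kk[X] FF x.num = x * algebraMap kk[X] FF x.denom :=
      ((eq_div_iff hq0).1 hx).symm
    rw [map_sub, map_mul, map_mul, RatFunc.algebraMap_C, h1]
    ring
  have hne : ∀ i, x - RatFunc.C (e i) * algebraMap kk[X] FF D ≠ 0 := by
    intro i h
    apply hy
    have h1 : y ^ 2 = 0 := by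
      rw [hxy]
      exact Finset.prod_eq_zero (Finset.mem_univ i) h
    exact pow_eq_zero_iff two_ne_zero |>.1 h1
  have hF0 : x.denom * (x.num - C (e i) * D * x.denom) ≠ 0 := by
    intro h
    have h1 := congrArg (algebraMap kk[X] FF) h
    rw [map_mul, hmap, map_zero] at h1
    exact (mul_ne_zero hq0 (mul_ne_zero hq0 (hne i))) h1
  refine ⟨?_, hq0, hF0, ?_⟩
  · rw [map_mul, hmap, eq_div_iff (pow_ne_zero _ hq0)]
    ring
  · intro r hr
    have hsq : (y * (algebraMap kk[X] FF x.denom) ^ 2) ^ 2 =
        algebraMap kk[X] FF (x.denom * ∏ i, (x.num - C (e i) * D * x.denom)) := by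
      rw [map_mul, map_prod, mul_pow, hxy]
      simp only [hmap]
      rw [Finset.prod_mul_distrib, Finset.prod_const, Finset.card_univ, Fintype.card_fin]
      ring
    obtain ⟨H, hH⟩ : ∃ H : kk[X], algebraMap kk[X] FF H =
        y * (algebraMap kk[X] FF x.denom) ^ 2 := by
      refine IsIntegrallyClosed.exists_algebraMap_eq_of_isIntegral_pow two_pos ?_
      rw [hsq]
      exact isIntegral_algebraMap
    have hH2 : H ^ 2 = x.denom * ∏ i, (x.num - C (e i) * D * x.denom) := by
      apply RatFunc.algebraMap_injective kk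
      rw [map_pow]
      change (algebraMap kk[X] FF H) ^ 2 = _
      rw [hH, hsq]
    have hH0 : H ≠ 0 := by
      intro h
      rw [h, map_zero] at hH
      exact mul_ne_zero hy (pow_ne_zero 2 hq0) hH.symm
    exact Par_even D e he x.num x.denom (RatFunc.isCoprime_num_denom x) H hH2 hH0 i r hr

theorem tPar : S_Par := by
  intro D e hD he
  refine ⟨Fintype.card (Fin 3 → D.roots.toFinset → Bool), fun x =>
    Fintype.equivFin (Fin 3 → D.roots.toFinset → Bool) (fun i r =>
      decide (Even (rootMultiplicity (r : kk) (x.denom * (x.num - C (e i) * D * x.denom))))), ?_⟩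
  intro x y x' y' hy hy' hxy hxy' hc i
  have hc1 := (Fintype.equivFin (Fin 3 → D.roots.toFinset → Bool)).injective hc
  obtain ⟨h1, h2, h3, h4⟩ := Par_fun D e he x y hy hxy i
  obtain ⟨h1', h2', h3', h4'⟩ := Par_fun D e he x' y' hy' hxy' i
  obtain ⟨S, hS⟩ := Par_sq ((x.denom * (x.num - C (e i) * D * x.denom)) *
    (x'.denom * (x'.num - C (e i) * D * x'.denom))) (by
      intro r
      rw [rootMultiplicity_mul (mul_ne_zero h3 h3')]
      by_cases hr : D.eval r = 0
      · have hmem : r ∈ D.roots.toFinset := by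
          rw [Multiset.mem_toFinset, mem_roots hD]
          exact hr
        have h5 := congrFun (congrFun hc1 i) ⟨r, hmem⟩
        simp only [decide_eq_decide] at h5
        rw [Nat.even_add]
        exact h5
      · exact (h4 r hr).add (h4' r hr))
  refine ⟨algebraMap kk[X] FF S /
    (algebraMap kk[X] FF x.denom * algebraMap kk[X] FF x'.denom), ?_⟩
  rw [h1, h1', div_mul_div_comm, ← map_mul, hS, map_pow, div_pow, mul_pow]

end Pool.Agent.Lib.NagA.R
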