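import Pool.Agent.Lib.MP_60fb2a_nt.R.Spec

/-!
# MP_60fb2a_nt, directory R: the automorphisms `SS`
-/

set_option autoImplicit false

namespace Pool.Agent.Lib.NagA.R

open Polynomial Classical

private theorem Sig_poly (σ : kk ≃ₐ[ℚ] kk) (p : kk[X]) : SS σ (algebraMap kk[X] FF p) =
    algebraMap kk[X] FF (p.map (σ : kk →+* kk)) := by
  have h1 : algebraMap kk[X] FF p = algebraMap kk[X] FF p / algebraMap kk[X] FF 1 := by
    rw [map_one, div_one]
  rw [h1]
  have hφ : nonZeroDivisors kk[X] ≤
      (nonZeroDivisors kk[X]).comap (Polynomial.mapRingHom (σ : kk →+* kk)) := by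
    intro p hp
    rw [Submonoid.mem_comap, mem_nonZeroDivisors_iff_ne_zero]
    rw [mem_nonZeroDivisors_iff_ne_zero] at hp
    intro h
    apply hp
    exact (Polynomial.map_injective _ (σ : kk →+* kk).injective) (by simpa using h)
  have h2 := RatFunc.map_apply_div (Polynomial.mapRingHom (σ : kk →+* kk)) hφ p 1
  have h3 : SS σ (algebraMap kk[X] FF p / algebraMap kk[X] FF 1) =
      algebraMap kk[X] FF (Polynomial.mapRingHom (σ : kk →+* kk) p) /
      algebraMap kk[X] FF (Polynomial.mapRingHom (σ : kk →+* kk) 1) := h2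
  rw [h3, map_one, map_one, div_one]
  rfl

theorem tSig : S_Sig := by
  intro σ
  refine ⟨?_, Sig_poly σ, ?_, ?_, ?_⟩
  · intro c
    rw [← RatFunc.algebraMap_C, Sig_poly, Polynomial.map_C, RatFunc.algebraMap_C]
    rfl
  · intro D
    rw [dd, Sig_poly, Dd, Polynomial.map_map]
    have h1 : (σ : kk →+* kk).comp (Int.castRingHom kk) = Int.castRingHom kk :=
      RingHom.ext_int _ _
    rw [h1]
  · intro n
    exact map_intCast (SS σ) n
  · intro i hi x
    have h0 : ∀ p : ℚ[X], SS σ (i (algebraMap ℚ[X] (RatFunc ℚ) p)) =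
        i (algebraMap ℚ[X] (RatFunc ℚ) p) := by
      intro p
      rw [hi p, Sig_poly, Polynomial.map_map]
      have h1 : (σ : kk →+* kk).comp (algebraMap ℚ kk) = algebraMap ℚ kk := by
        ext q
        exact σ.commutes q
      rw [h1]
    have h1 : x = algebraMap ℚ[X] (RatFunc ℚ) x.num / algebraMap ℚ[X] (RatFunc ℚ) x.denom :=
      (RatFunc.num_div_denom x).symm
    rw [h1, map_div₀, map_div₀, h0, h0]

end Pool.Agent.Lib.NagA.R
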