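import Pool.Agent.Lib.MP_60fb2a_nt.R.Spec

/-!
# MP_60fb2a_nt, directory R: Kummer map and halving
-/

set_option autoImplicit false

namespace Pool.Agent.Lib.NagA.R

open Polynomial Classical

private theorem Two_half {F : Type} [Field F] (h1 : S_Grp) {A B : F} {e : Fin 3 → F}
    (h2 : (2 : F) ≠ 0) (hdisc : 4 * A ^ 3 + 27 * B ^ 2 ≠ 0) (hinj : Function.Injective e)
    (he : e 0 + e 1 + e 2 = 0) (hA : A = e 0 * e 1 + e 0 * e 2 + e 1 * e 2)
    (hB : B = -(e 0 * e 1 * e 2)) (R : Pt A B) (X Y : F) (hR : IsXY R X Y) (r : Fin 3 → F)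
    (hr : ∀ i, r i ^ 2 = X - e i) (hY : r 0 * r 1 * r 2 = Y) : ∃ z : Pt A B, R = z + z := by
  obtain ⟨-, -, g3, g4, -, -, -, g8, -⟩ := h1 F A B h2 hdisc
  have hne : ∀ i j, i ≠ j → r i + r j ≠ 0 := by
    intro i j hij h
    apply hij
    apply hinj
    have h3 : r i ^ 2 = r j ^ 2 := by linear_combination (r i - r j) * h
    rw [hr, hr] at h3
    linear_combination -h3
  have a0 : e 0 = X - r 0 ^ 2 := by rw [hr 0]; ring
  have a1 : e 1 = X - r 1 ^ 2 := by rw [hr 1]; ring
  have a2 : e 2 = X - r 2 ^ 2 := by rw [hr 2]; ring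
  obtain ⟨x2, hx2⟩ : ∃ x2, x2 = X + (r 0 * r 1 + r 0 * r 2 + r 1 * r 2) := ⟨_, rfl⟩
  obtain ⟨y2, hy2⟩ : ∃ y2, y2 = (r 0 + r 1) * (r 0 + r 2) * (r 1 + r 2) := ⟨_, rfl⟩
  obtain ⟨z, hz⟩ := g3 x2 y2 (by
    have hf : (x2 - e 0) * (x2 - e 1) * (x2 - e 2) = x2 ^ 3 + A * x2 + B := by
      rw [hA, hB]; linear_combination (-x2 ^ 2) * he
    rw [← hf, a0, a1, a2, hx2, hy2]
    ring)
  have hy0 : y2 ≠ 0 := by
    rw [hy2]
    exact mul_ne_zero (mul_ne_zero (hne 0 1 (by decide)) (hne 0 2 (by decide)))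
      (hne 1 2 (by decide))
  have hd : (x2 - e 0) * (x2 - e 1) + (x2 - e 0) * (x2 - e 2) + (x2 - e 1) * (x2 - e 2) =
      3 * x2 ^ 2 + A := by
    rw [hA]; linear_combination (-2 * x2) * he
  have h3 := g8 z x2 y2 (r 0 + r 1 + r 2) X hz hy0
    (by rw [← hd, a0, a1, a2, hx2, hy2]; ring)
    (by rw [a0, a1, a2] at he; rw [hx2]; linear_combination he)
  have h4 : (r 0 + r 1 + r 2) * (x2 - X) - y2 = Y := by
    rw [← hY, hx2, hy2]; ring
  rw [h4] at h3
  exact ⟨z, g4 _ _ _ _ hR h3⟩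

theorem tTwo (h1 : S_Grp) : S_Two := by
  intro F _ A B e h2 hdisc hinj he hA hB P Q x y x' y' hP hQ hy hy' hs
  obtain ⟨g1, g2, g3, g4, g5, g6, g7, g8, g9⟩ := h1 F A B h2 hdisc
  have hEP := (g2 P x y hP).2
  have hEQ := (g2 Q x' y' hQ).2
  have hf : ∀ t, (t - e 0) * (t - e 1) * (t - e 2) = t ^ 3 + A * t + B := by
    intro t
    rw [hA, hB]; linear_combination (-t ^ 2) * he
  by_cases hx : x = x'
  · have h3 : y' = y ∨ y' = -y := sq_eq_sq_iff_eq_or_eq_neg.mp (by rw [hEP, hEQ, hx])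
    rcases h3 with h3 | h3
    · refine ⟨P, ?_⟩
      have h4 : Q = P := by
        refine g4 Q P x y ?_ hP
        rw [hx, ← h3]; exact hQ
      rw [h4]
    · refine ⟨0, ?_⟩
      have h4 : Q = -P := by
        refine g4 Q (-P) x (-y) ?_ (g6 P x y hP)
        rw [hx, ← h3]; exact hQ
      rw [h4]
      simp
  · choose s hs using hs
    have hxe : ∀ i, x - e i ≠ 0 := by
      intro i h3
      apply hy
      have h4 := hf x
      rw [← hEP] at h4
      have h5 : y ^ 2 = 0 := by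
        rw [← h4]
        fin_cases i
        · change x - e 0 = 0 at h3
          rw [h3]; ring
        · change x - e 1 = 0 at h3
          rw [h3]; ring
        · change x - e 2 = 0 at h3
          rw [h3]; ring
      exact pow_eq_zero_iff (two_ne_zero) |>.1 h5
    have hxe' : ∀ i, x' - e i ≠ 0 := by
      intro i h3
      apply hy'
      have h4 := hf x'
      rw [← hEQ] at h4
      have h5 : y' ^ 2 = 0 := by
        rw [← h4]
        fin_cases i
        · change x' - e 0 = 0 at h3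
          rw [h3]; ring
        · change x' - e 1 = 0 at h3
          rw [h3]; ring
        · change x' - e 2 = 0 at h3
          rw [h3]; ring
      exact pow_eq_zero_iff (two_ne_zero) |>.1 h5
    have hs0 : ∀ i, s i ≠ 0 := by
      intro i h3
      have h4 := hs i
      rw [h3] at h4
      have h5 : (x - e i) * (x' - e i) = 0 := by rw [h4]; ring
      rcases mul_eq_zero.1 h5 with h6 | h6
      · exact hxe i h6
      · exact hxe' i h6
    have hx0 : x - x' ≠ 0 := sub_ne_zero.2 hx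
    obtain ⟨l, hl⟩ : ∃ l, l * (x - x') = y - y' := ⟨(y - y') / (x - x'), by field_simp⟩
    obtain ⟨X, hX⟩ : ∃ X, X = l ^ 2 - x - x' := ⟨_, rfl⟩
    have hPQ := g9 P Q x y x' y' l X hP hQ hx hl hX
    obtain ⟨Y, hY⟩ : ∃ Y, Y = l * (x - X) - y := ⟨_, rfl⟩
    rw [← hY] at hPQ
    have hc1 : A + 2 * l ^ 2 * x - 2 * l * y - (x * x' + x * X + x' * X) = 0 := by
      have h3 : (A + 2 * l ^ 2 * x - 2 * l * y - (x * x' + x * X + x' * X)) * (x - x') = 0 := by
        rw [hX]
        have hy1 : y' = y - l * (x - x') := by rw [hl]; ring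
        rw [hy1] at hEQ
        linear_combination hEQ - hEP
      rcases mul_eq_zero.1 h3 with h4 | h4
      · exact h4
      · exact absurd h4 hx0
    have hc0 : B - l ^ 2 * x ^ 2 + 2 * l * x * y - y ^ 2 + x * x' * X = 0 := by
      rw [hX] at hc1 ⊢
      linear_combination -hEP - x * hc1
    have key : ∀ i, (x - e i) * (x' - e i) * (X - e i) = (l * (e i - x) + y) ^ 2 := by
      intro i
      have hft : e i ^ 3 + A * e i + B = 0 := by
        rw [← hf]
        fin_cases i
        · change (e 0 - e 0) * (e 0 - e 1) * (e 0 - e 2) = 0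
          ring
        · change (e 1 - e 0) * (e 1 - e 1) * (e 1 - e 2) = 0
          ring
        · change (e 2 - e 0) * (e 2 - e 1) * (e 2 - e 2) = 0
          ring
      have hX' : X - (l ^ 2 - x - x') = 0 := by rw [hX]; ring
      linear_combination -hft + (e i) * hc1 + hc0 + (e i) ^ 2 * hX'
    have hr1 : ∀ i, ((l * (e i - x) + y) / s i) ^ 2 = X - e i := by
      intro i
      rw [div_pow, ← key i, hs i]
      have := hs0 i
      field_simp
    have hprod : (((l * (e 0 - x) + y) / s 0) * ((l * (e 1 - x) + y) / s 1) *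
        ((l * (e 2 - x) + y) / s 2)) ^ 2 = Y ^ 2 := by
      rw [mul_pow, mul_pow, hr1, hr1, hr1, hf X]
      exact ((g2 _ _ _ hPQ).2).symm
    rcases sq_eq_sq_iff_eq_or_eq_neg.mp hprod with h3 | h3
    · exact Two_half h1 h2 hdisc hinj he hA hB (P + Q) X Y hPQ
        (fun i => (l * (e i - x) + y) / s i) hr1 h3
    · refine Two_half h1 h2 hdisc hinj he hA hB (P + Q) X Y hPQ
        (fun i => -((l * (e i - x) + y) / s i)) (fun i => ?_) ?_
      · rw [neg_sq]; exact hr1 i
      · have h4 : -((l * (e 0 - x) + y) / s 0) * -((l * (e 1 - x) + y) / s 1) *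
            -((l * (e 2 - x) + y) / s 2) = -(((l * (e 0 - x) + y) / s 0) *
            ((l * (e 1 - x) + y) / s 1) * ((l * (e 2 - x) + y) / s 2)) := by ring
        rw [h4, h3, neg_neg]

end Pool.Agent.Lib.NagA.R
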