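import Pool.Agent.Lib.MP_60fb2a_nt.R.Spec
import Pool.Agent.Lib.MP_60fb2a_nt.R.AllS
import Pool.Agent.Lib.MP_60fb2a_nt.R.Abs
import Pool.Agent.Lib.MP_60fb2a_nt.R.Grp
import Pool.Agent.Lib.MP_60fb2a_nt.R.Map
import Pool.Agent.Lib.MP_60fb2a_nt.R.Two
import Pool.Agent.Lib.MP_60fb2a_nt.R.Ht
import Pool.Agent.Lib.MP_60fb2a_nt.R.Ncs
import Pool.Agent.Lib.MP_60fb2a_nt.R.Par
import Pool.Agent.Lib.MP_60fb2a_nt.R.Sig
import Pool.Agent.Lib.MP_60fb2a_nt.R.Gal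
import Pool.Agent.Lib.MP_60fb2a_nt.R.Hgt
import Pool.Agent.Lib.MP_60fb2a_nt.R.Cls
import Pool.Agent.Lib.MP_60fb2a_nt.R.Eig

/-!
# MP_60fb2a_nt, directory R: only finitely many squarefree twists have positive rank
-/

set_option autoImplicit false

namespace Pool.Agent.Lib.NagA.R

/-- Only finitely many squarefree `d` give a twist of `D y ^ 2 = x ^ 3 + a x + b` of positive rank over `ℚ(T)`. -/
theorem rankAll : RankStmt :=
  tAll tAbs tGrp tMap (tTwo tGrp) tHt tNcs tPar tSig tGal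
    (tHgt tGrp tHt tNcs) (tCls tGrp (tTwo tGrp) tPar tNcs) (tEig tGrp tSig tNcs)

end Pool.Agent.Lib.NagA.R
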