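import Pool.Agent.Lib.MP_60fb2a_nt.R.Spec

/-!
# MP_60fb2a_nt, directory R: square roots of squarefree integers are separated by an automorphism
-/

set_option autoImplicit false

namespace Pool.Agent.Lib.NagA.R

open Polynomial Classical

private theorem Gal_alg (K : Type) [Field K] (a1 a2 : Algebra ℚ K)
    (h : @IsGalois ℚ _ K _ a1) : @IsGalois ℚ _ K _ a2 := by
  have h1 : a1 = a2 := Subsingleton.elim _ _
  subst h1
  exact h

private theorem Gal_gal : IsGalois ℚ kk :=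
  Gal_alg kk (@AlgebraicClosure.instAlgebra ℚ _ ℚ _ (Algebra.id ℚ)) _
    (@IsAlgClosure.isGalois ℚ (AlgebraicClosure ℚ) _ _
      (@AlgebraicClosure.instAlgebra ℚ _ ℚ _ (Algebra.id ℚ)) inferInstance inferInstance)

private theorem Gal_sqf (d d' m : ℤ) (hd : Squarefree d) (hd' : Squarefree d')
    (h : d * d' = m * m) : d = d' := by
  have hd0 : d ≠ 0 := hd.ne_zero
  have h1 : d ∣ m := by
    have h2 : d ∣ m ^ 2 := ⟨d', by rw [h]; ring⟩
    exact (hd.dvd_pow_iff_dvd two_ne_zero).1 h2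
  obtain ⟨k, rfl⟩ := h1
  have h3 : d' = k * k * d := by
    have h4 : d * d' = d * (k * k * d) := by rw [h]; ring
    exact mul_left_cancel₀ hd0 h4
  have h5 : IsUnit k := hd' k ⟨d, h3⟩
  rcases Int.isUnit_iff.1 h5 with h6 | h6
  · rw [h3, h6]; ring
  · rw [h3, h6]; ring

theorem tGal : S_Gal := by
  intro d d' w w' hd hd' hne hw hw'
  have hd0 : (d : kk) ≠ 0 := by exact_mod_cast hd.ne_zero
  have hd0' : (d' : kk) ≠ 0 := by exact_mod_cast hd'.ne_zero
  have hw0 : w ≠ 0 := by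
    intro h
    rw [h] at hw
    exact hd0 (by rw [← hw]; ring)
  have hw0' : w' ≠ 0 := by
    intro h
    rw [h] at hw'
    exact hd0' (by rw [← hw']; ring)
  have hu : ¬ ∀ σ : kk ≃ₐ[ℚ] kk, σ (w / w') = w / w' := by
    intro hall
    have hg : IsGalois ℚ kk := Gal_gal
    have h1 : w / w' ∈ (⊥ : IntermediateField ℚ kk) :=
      (InfiniteGalois.mem_bot_iff_fixed (w / w')).2 hall
    rw [IntermediateField.mem_bot] at h1
    obtain ⟨q, hq⟩ := h1
    have h2 : ((q * d') * (q * d') : ℚ) = ((d * d' : ℤ) : ℚ) := by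
      have h3 : algebraMap ℚ kk ((q * d') * (q * d')) = algebraMap ℚ kk ((d * d' : ℤ) : ℚ) := by
        rw [map_mul, map_mul, hq, map_intCast, map_intCast]
        push_cast
        rw [← hw, ← hw']
        field_simp
      exact (algebraMap ℚ kk).injective h3
    have h3 : IsSquare ((d * d' : ℤ) : ℚ) := ⟨q * d', h2.symm⟩
    rw [Rat.isSquare_intCast_iff] at h3
    obtain ⟨m, hm⟩ := h3
    exact hne (Gal_sqf d d' m hd hd' hm)
  push Not at hu
  obtain ⟨σ, hσ⟩ := hu
  refine ⟨σ, ?_⟩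
  have h1 : σ w = w ∨ σ w = -w := sq_eq_sq_iff_eq_or_eq_neg.mp (by
    rw [← map_pow, hw, map_intCast])
  have h2 : σ w' = w' ∨ σ w' = -w' := sq_eq_sq_iff_eq_or_eq_neg.mp (by
    rw [← map_pow, hw', map_intCast])
  rw [map_div₀] at hσ
  rcases h1 with h1 | h1 <;> rcases h2 with h2 | h2
  · exact absurd (by rw [h1, h2]) hσ
  · exact Or.inl ⟨h1, h2⟩
  · exact Or.inr ⟨h1, h2⟩
  · exact absurd (by rw [h1, h2, neg_div_neg_eq]) hσ

end Pool.Agent.Lib.NagA.R
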