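import Pool.Agent.Lib.MP_60fb2a_nt.Defs

/-!
# MP_60fb2a_nt, directory R (rank part of theorem (2+), helper30): statements

`D y ^ 2 = x ^ 3 + a x + b` over `kk(T)`, `kk` the algebraic closure of `ℚ`, is written as
`y ^ 2 = x ^ 3 + a D ^ 2 x + b D ^ 3`,
group of points `MK a b D`. The twists `E_d`, `d` squarefree, give eigenvectors of `Gal(kk/ℚ)` in
`MK a b D`, and
`MK/2 MK` is finite; heights replace finite generation. Every `S_...` is a statement with a complete proof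
in its docstring;
module `R/<Name>.lean`, theorem `t<Name>`, the used statements are hypotheses in the order of the docstring.
Every module uses `open scoped Classical` or `open Classical` as this file does.
-/

set_option autoImplicit false

namespace Pool.Agent.Lib.NagA.R

open Polynomial Classical

/-- the algebraic closure of `ℚ` -/
abbrev kk : Type := AlgebraicClosure ℚ

/-- the rational functions over `kk` -/
abbrev FF : Type := RatFunc kk

/-- the points of `y ^ 2 = x ^ 3 + A x + B` -/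
abbrev Pt {F : Type} [Field F] (A B : F) : Type :=
  (⟨0, 0, 0, A, B⟩ : WeierstrassCurve F).toAffine.Point

/-- `P` is the point with the coordinates `x`, `y` -/
def IsXY {F : Type} [Field F] {A B : F} (P : Pt A B) (x y : F) : Prop :=
  ∃ h : (⟨0, 0, 0, A, B⟩ : WeierstrassCurve F).toAffine.Nonsingular x y,
    P = WeierstrassCurve.Affine.Point.some x y h

/-- the height of a rational function -/
noncomputable def ht {k : Type} [Field k] (x : RatFunc k) : ℕ :=
  max x.num.natDegree x.denom.natDegree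

/-- `D` as a polynomial over `kk` -/
noncomputable def Dd (D : ℤ[X]) : kk[X] := D.map (Int.castRingHom kk)

/-- `D` as a rational function over `kk` -/
noncomputable def dd (D : ℤ[X]) : FF := algebraMap kk[X] FF (Dd D)

/-- the points of `y ^ 2 = x ^ 3 + a D ^ 2 x + b D ^ 3` over `kk(T)` -/
abbrev MK (a b : ℤ) (D : ℤ[X]) : Type := Pt ((a : FF) * dd D ^ 2) ((b : FF) * dd D ^ 3)

/-- the automorphism of `kk(T)` given by `σ` on the coefficients -/
noncomputable def SS (σ : kk ≃ₐ[ℚ] kk) : FF →+* FF :=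
  RatFunc.mapRingHom (Polynomial.mapRingHom (σ : kk →+* kk)) (by
    intro p hp
    rw [Submonoid.mem_comap, mem_nonZeroDivisors_iff_ne_zero]
    rw [mem_nonZeroDivisors_iff_ne_zero] at hp
    intro h
    apply hp
    exact (Polynomial.map_injective _ (σ : kk →+* kk).injective) (by simpa using h))

/-- **Abs** (150 lines, no dependence). The counting argument.

Proof. `h 0 = 0` (`0 + 0 = 0`), `h (2^n • x) = 4^n h x`. (A) If `2^n • R = c • P` with `R ∈ M`, `c ∈ ℤ`,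
`P + P ≠ 0`, then
`2^n ∣ 2^(h P) c`: trivial for `c = 0`; let `c = 2^v c'`, `c'` odd; trivial for `n ≤ v`; let `v < n`,
`u = n - v`. With
`y = 2^u R - c' P`: `2^v y = 0`, so `4^v h y = 0`, `h y = 0`, `y + y = 0`. Choose `α c' + β 2^u = 1`:
`P = α c' P + β 2^u P = 2^u z - α y`, `z = α R + β P`, so `P + P = 2^u (z + z)`, `4 h P = 4^u * 4 * h z`,
and `h z ≠ 0`
(otherwise `z + z = 0`, `P + P = 0`), so `u ≤ 4^u ≤ h P`; `2^n = 2^(u + v) ∣ 2^(h P) c`.
(B) Fix `i`. For every finite set `S` not containing `i` there are `T : M →+ M` and `t : Fin N → ℤ` with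
`T (P l) = t l • P l` for all `l`,
`t j = 0` for `j ∈ S`, and `t i = 2^#S` or `t i = - 2^#S`: induction on `S` (compose with `s + id` if
`s (P i) = P i`, `s (P j) = - P j`,
and with `s - id` in the other case; if `s (P l) = P l` the new factor is `2` resp. `0`, if
`s (P l) = - P l` it is `0` resp. `-2`).
(C) If `∑ l, c l • P l = 2^n • R` then for every `i`: apply `T` of (B) with `S = univ \ {i}`:
`2^n • T R = (c i * t i) • P i`, so by (A)
`2^n ∣ 2^(h (P i)) * c i * 2^(N-1)`. Let `B = N + ∑ l, h (P l)` and `n = B + q`: then `2^q ∣ c i` for all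
`i`.
(D) Pigeonhole: if `S` is a finite subset of `M` with more than `C^n` elements then there are `x ≠ y` in
`S` and `z` with
`x - y = 2^n • z`: induction on `n`: one fibre of the class function on `S` has more than `C^(n-1)`
elements, they are `x0 + 2 u_x`
with different `u_x`; apply the induction to the `u_x`.
(E) Suppose `C < 2^N`; `C ≥ 1`. Choose `q` with `C^(B + q) < (2^q)^N` (`(2^N/C)^q > C^B` for large `q`),
`n = B + q`. The elements
`∑ l, a l • P l`, `a : Fin N → Fin (2^q)`: by (C) (with `R = 0`, resp. the `z` of (D)) two of them which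
differ by an element
`2^n • z` have `2^q ∣ a l - a' l` for all `l`, so `a = a'`. So they are different and (D) gives a
contradiction. -/
def S_Abs : Prop := ∀ (M : Type) [AddCommGroup M] (C N : ℕ) (c : M → Fin C) (h : M → ℕ),
  (∀ x y : M, c x = c y → ∃ z, x - y = z + z) → (∀ x, h (x + x) = 4 * h x) →
  (∀ x, h x = 0 → x + x = 0) → ∀ P : Fin N → M, (∀ i, P i + P i ≠ 0) →
  (∀ i j, i ≠ j → ∃ s : M →+ M, (∀ l, s (P l) = P l ∨ s (P l) = -P l) ∧
    ((s (P i) = P i ∧ s (P j) = -P j) ∨ (s (P i) = -P i ∧ s (P j) = P j))) → 2 ^ N ≤ C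

/-- **Grp** (150 lines, no dependence). The group law on `y ^ 2 = x ^ 3 + A x + B`.

Proof. Unfold the definitions of Mathlib (`AlgebraicGeometry/EllipticCurve/Affine/Formula.lean`,
`Affine/Point.lean`: `equation_iff`,
`nonsingular_iff`, `slope_of_X_ne`, `slope_of_Y_ne`, `Point.add_some`, `addX`, `negAddY`, `addY`, `negY`,
`Y_eq_of_X_eq`). (3): if
`2 y = 0` and `3 x ^ 2 + A = 0`, then `y = 0` and `x` is a double root, `4 A ^ 3 + 27 B ^ 2 = 0`: with
`B = - x ^ 3 - A x`, `A = - 3 x ^ 2`: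
`B = 2 x ^ 3`, `4 A ^ 3 + 27 B ^ 2 = - 108 x ^ 6 + 108 x ^ 6`. A similar file is
`MP_72e2e6_nt/Sm/C/Grp.lean` (may be copied). -/
def S_Grp : Prop := ∀ (F : Type) [Field F] (A B : F), (2 : F) ≠ 0 → 4 * A ^ 3 + 27 * B ^ 2 ≠ 0 →
  (∀ P : Pt A B, P = 0 ∨ ∃ x y, IsXY P x y) ∧
  (∀ (P : Pt A B) (x y : F), IsXY P x y → P ≠ 0 ∧ y ^ 2 = x ^ 3 + A * x + B) ∧
  (∀ x y : F, y ^ 2 = x ^ 3 + A * x + B → ∃ P : Pt A B, IsXY P x y) ∧
  (∀ (P Q : Pt A B) (x y : F), IsXY P x y → IsXY Q x y → P = Q) ∧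
  (∀ (P : Pt A B) (x y x' y' : F), IsXY P x y → IsXY P x' y' → x = x' ∧ y = y') ∧
  (∀ (P : Pt A B) (x y : F), IsXY P x y → IsXY (-P) x (-y)) ∧
  (∀ (P : Pt A B) (x : F), IsXY P x 0 → P + P = 0) ∧
  (∀ (P : Pt A B) (x y l X : F), IsXY P x y → y ≠ 0 → 2 * l * y = 3 * x ^ 2 + A →
    X = l ^ 2 - 2 * x → IsXY (P + P) X (l * (x - X) - y)) ∧
  ∀ (P Q : Pt A B) (x y x' y' l X : F), IsXY P x y → IsXY Q x' y' → x ≠ x' →
    l * (x - x') = y - y' → X = l ^ 2 - x - x' → IsXY (P + Q) X (l * (x - X) - y)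

/-- **Map** (60 lines, no dependence). A ring homomorphism which fixes `A` and `B` acts on the points.

Proof. Let `R = RingHom.eqLocus s (RingHom.id F)`, a subring of `F` containing `A`, `B`, `f : F →ₐ[R] F`
the map `s`, and
`W' : WeierstrassCurve R := ⟨0, 0, 0, ⟨A, _⟩, ⟨B, _⟩⟩`. `W'.baseChange F` (or `W'⁄F`) is `⟨0, 0, 0, A, B⟩`
(`rfl` or by `ext`; then use
`subst`/rewriting of the curve as a variable), and `WeierstrassCurve.Affine.Point.map f` is the wanted map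
(`Point.map_some`, with `S = R`). -/
def S_Map : Prop := ∀ (F : Type) [Field F] (A B : F) (s : F →+* F), s A = A → s B = B →
  ∃ g : Pt A B →+ Pt A B, ∀ (P : Pt A B) (x y : F), IsXY P x y → IsXY (g P) (s x) (s y)

/-- **Two** (150 lines, uses S_Grp). Kummer map and halving.

Proof. `x - e i ≠ 0`, `x' - e i ≠ 0` (`y ^ 2`, `y' ^ 2` are the products). If `P = Q` take `z = P`; if
`x = x'` then `y' = ± y`, `Q = P` or
`Q = - P` (`S_Grp` (4), (6)); `z = 0`. Let `x ≠ x'`, `l = (y - y')/(x - x')`, `X = l ^ 2 - x - x'`,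
`Y = l (x - X) - y`: `P + Q = (X, Y)`.
`(x - e i) (x' - e i) (X - e i) = (l (e i - x) + y) ^ 2` (the cubic `f(t) - (l (t - x) + y) ^ 2` is
`(t - x) (t - x') (t - X)`: same
coefficients, use the equations of `P`, `Q`; take `t = e i`). With `s i` as in the hypothesis (`s i ≠ 0`):
`r i = (l (e i - x) + y)/s i`, `r i ^ 2 = X - e i`. `(r 0 r 1 r 2) ^ 2 = Y ^ 2`; changing all signs of `r`
we may assume
`r 0 r 1 r 2 = Y`. Halving: `x2 = X + (r 0 r 1 + r 0 r 2 + r 1 r 2)`,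
`y2 = (r 0 + r 1) (r 0 + r 2) (r 1 + r 2)`:
`x2 - e i = (r i + r j) (r i + r k)`, so `z = (x2, y2)` is a point; `y2 ≠ 0` (`r i = - r j` would give
`e i = e j`); the slope is
`L = r 0 + r 1 + r 2`: `2 L y2 = 3 x2 ^ 2 + A`, `L ^ 2 - 2 x2 = X` (`e 0 + e 1 + e 2 = 0`: compare
coefficients in `he` at several values,
or `3 X = r 0 ^ 2 + r 1 ^ 2 + r 2 ^ 2`), `L (x2 - X) - y2 = Y`. So `z + z = P + Q` by `S_Grp` (8), (4).
(`he` gives `e 0 + e 1 + e 2 = 0`, `A = e 0 e 1 + ..`, `B = - e 0 e 1 e 2`: they are hypotheses.) See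
`MP_72e2e6_nt/Sm/C/Hal.lean`. -/
def S_Two : Prop := ∀ (F : Type) [Field F] (A B : F) (e : Fin 3 → F), (2 : F) ≠ 0 →
  4 * A ^ 3 + 27 * B ^ 2 ≠ 0 → Function.Injective e → e 0 + e 1 + e 2 = 0 →
  A = e 0 * e 1 + e 0 * e 2 + e 1 * e 2 → B = -(e 0 * e 1 * e 2) →
  ∀ (P Q : Pt A B) (x y x' y' : F), IsXY P x y → IsXY Q x' y' → y ≠ 0 → y' ≠ 0 →
    (∀ i, ∃ s, (x - e i) * (x' - e i) = s ^ 2) → ∃ z : Pt A B, P + Q = z + z

/-- **Ht** (150 lines, no dependence). The height of the duplication map.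

Proof. (1) `ht X = 0`: numerator and denominator are constants. (2) constants. (3) If `X = u/v`, `u`, `v`
coprime, `v ≠ 0`, then
`ht X = max (deg u) (deg v)`: `u * denom = num * v` with both pairs coprime
(`RatFunc.isCoprime_num_denom`), so `u` and `num` are
associated, `v` and `denom` too. (4) Let `X = p/q`, `p = X.num`, `q = X.denom`, `H = ht X`,
`δ = 4 a ^ 3 + 27 b ^ 2`,
`F = (p ^ 2 - a q ^ 2) ^ 2 - 8 b p q ^ 3`, `G = 4 q (p ^ 3 + a p q ^ 2 + b q ^ 3)` (constants as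
polynomials): the function is
`F/G`, `G ≠ 0`. Identities (`ring`):
`(12 p ^ 2 q + 16 a q ^ 3) F - (3 p ^ 3 - 5 a p q ^ 2 - 27 b q ^ 3) G = 4 δ q ^ 7`,
`(4 δ p ^ 3 - 4 a ^ 2 b p ^ 2 q + 4 a (3 a ^ 3 + 22 b ^ 2) p q ^ 2 + 12 b (a ^ 3 + 8 b ^ 2) q ^ 3) F +
(a ^ 2 b p ^ 3 + a (5 a ^ 3 + 32 b ^ 2) p ^ 2 q + 2 b (13 a ^ 3 + 96 b ^ 2) p q ^ 2 - 3 a ^ 2 (a ^ 3 + 8 b
^ 2) q ^ 3) G = 4 δ p ^ 7`.
So `F`, `G` are coprime (`p ^ 7`, `q ^ 7` are coprime, `4 δ` is a unit), `max (deg F) (deg G) ≤ 4 H`, and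
if it were `< 4 H` then
`p ^ 7` and `q ^ 7` would have degree `< 7 H`. -/
def S_Ht : Prop := ∀ (k : Type) [Field k],
  (∀ X : RatFunc k, ht X = 0 → ∃ c : k, X = RatFunc.C c) ∧
  (∀ c : k, ht (RatFunc.C c) = 0) ∧
  ∀ a b : k, (2 : k) ≠ 0 → 4 * a ^ 3 + 27 * b ^ 2 ≠ 0 → ∀ X : RatFunc k,
    X ^ 3 + RatFunc.C a * X + RatFunc.C b ≠ 0 →
    ht (((X ^ 2 - RatFunc.C a) ^ 2 - 8 * RatFunc.C b * X) /
      (4 * (X ^ 3 + RatFunc.C a * X + RatFunc.C b))) = 4 * ht X

/-- **Ncs** (120 lines, no dependence). `D` is not a constant times a square over `kk` either.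

Proof. `D ≠ 0` (`c = 0` in `NCS`). Suppose `y ≠ 0`, so `c ≠ 0`; then `(y/D) ^ 2 = c D`; with `w ^ 2 = c`
(`kk` is algebraically closed)
`v = y/(D w)` satisfies `v ^ 2 = D` in `kk(T)`; `v` is integral over `kk[T]`, so it is a polynomial `g`
(`IsIntegrallyClosed`), `Dd D = g ^ 2`.
Let `l` be the leading coefficient of `g` and `g = l g1`, `g1` monic. `Dd D = l ^ 2 g1 ^ 2`, `l ^ 2` is the
leading coefficient of
`D` (an integer `m ≠ 0`). For `σ ∈ Gal(kk/ℚ)`: `σ(g1) ^ 2 = g1 ^ 2`, both monic, so `σ(g1) = g1`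
(`(σ(g1) - g1)(σ(g1) + g1) = 0`, and
`σ(g1) + g1` has the leading coefficient `2`). So all coefficients of `g1` are rational (`kk/ℚ` is Galois:
`IsGalois.mem_bot_iff_fixed` or similar), `g1 = g2.map`, and `D = m g2 ^ 2` over `ℚ`: contradiction to
`NCS`. -/
def S_Ncs : Prop := ∀ D : ℤ[X], NCS D → D ≠ 0 ∧ dd D ≠ 0 ∧
  ∀ (c : kk) (y : FF), y ^ 2 = dd D ^ 3 * RatFunc.C c → y = 0

/-- **Par** (150 lines, no dependence). The finite set of classes.

Proof. For `x ∈ FF` let `p = x.num`, `q = x.denom` and `F i = q * (p - e i D q)` (a polynomial,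
`x - e i D = F i / q ^ 2`). If
`y ^ 2 = ∏ (x - e i D)`, `y ≠ 0`, then `F i ≠ 0` and `(y q ^ 2) ^ 2 = q * ∏ (p - e i D q) =: G`; `y q ^ 2`
is integral over `kk[T]`, so it
is a polynomial, and `G` is a square in `kk[T]`: all its root multiplicities are even. If `r` is not a root
of `D`, then at most one of the
four polynomials `q`, `p - e i D q` vanishes at `r` (`q(r) = 0` implies `p(r) ≠ 0`; two of the others:
`(e i - e j) D(r) q(r) = 0`, so
`q(r) = 0` and `p(r) = 0`), so all four have even multiplicity at `r`, and `F i` has even multiplicity at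
all `r` with `D(r) ≠ 0`.
The class: the function `(i, r) ↦ (rootMultiplicity r (F i)) % 2`, `r` in the roots of `D` (a finite type,
so it has an
injection to some `Fin C`). If `(x, y)` and `(x', y')` have the same class then `F i * F' i` has even
multiplicity at all points, so it is
a square of a polynomial (`kk` algebraically closed: `∏` over the roots), and
`(x - e i D) (x' - e i D) = F i F' i/(q q') ^ 2`. -/
def S_Par : Prop := ∀ (D : kk[X]) (e : Fin 3 → kk), D ≠ 0 → Function.Injective e →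
  ∃ (C : ℕ) (c : FF → Fin C), ∀ x y x' y' : FF, y ≠ 0 → y' ≠ 0 →
    y ^ 2 = ∏ i, (x - RatFunc.C (e i) * algebraMap kk[X] FF D) →
    y' ^ 2 = ∏ i, (x' - RatFunc.C (e i) * algebraMap kk[X] FF D) → c x = c x' →
    ∀ i, ∃ s : FF, (x - RatFunc.C (e i) * algebraMap kk[X] FF D) *
      (x' - RatFunc.C (e i) * algebraMap kk[X] FF D) = s ^ 2

/-- **Sig** (60 lines, no dependence). The automorphisms `SS σ`. (`RatFunc.map_apply_div`,
`Polynomial.map_map`; a ring homomorphism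
of `ℤ` is unique.) The last claim: `q/1` with rational coefficients. -/
def S_Sig : Prop := ∀ σ : kk ≃ₐ[ℚ] kk,
  (∀ c : kk, SS σ (RatFunc.C c) = RatFunc.C (σ c)) ∧
  (∀ p : kk[X], SS σ (algebraMap kk[X] FF p) = algebraMap kk[X] FF (p.map (σ : kk →+* kk))) ∧
  (∀ D : ℤ[X], SS σ (dd D) = dd D) ∧
  (∀ n : ℤ, SS σ (n : FF) = n) ∧
  ∀ (i : RatFunc ℚ →+* FF), (∀ p : ℚ[X], i (algebraMap ℚ[X] (RatFunc ℚ) p) =
    algebraMap kk[X] FF (p.map (algebraMap ℚ kk))) → ∀ x : RatFunc ℚ, SS σ (i x) = i x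

/-- **Gal** (80 lines, no dependence). Two different squarefree integers are separated by an automorphism.

Proof. `w, w' ≠ 0`, `u = w/w'`, `u ^ 2 = d/d'` is not the square of a rational number (`d d' = (m) ^ 2`
with `d`, `d'` squarefree implies
`d = d'`: `|d| = |d'|` since every prime divides `d d'` to an even power, and the signs agree), so `u ∉ ℚ`
and there is
`σ` with `σ u ≠ u` (`kk/ℚ` is Galois); `(σ u) ^ 2 = u ^ 2`, so `σ u = - u`. `(σ w) ^ 2 = w ^ 2`, so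
`σ w = ± w`, the same for `w'`; the signs are
different. -/
def S_Gal : Prop := ∀ (d d' : ℤ) (w w' : kk), Squarefree d → Squarefree d' → d ≠ d' →
  w ^ 2 = d → w' ^ 2 = d' → ∃ σ : kk ≃ₐ[ℚ] kk,
    (σ w = w ∧ σ w' = -w') ∨ (σ w = -w ∧ σ w' = w')

/-- **Hgt** (100 lines, uses S_Grp, S_Ht, S_Ncs). The height function on the points.

Proof. `h 0 = 0`, `h (x, y) = ht (x/D)` (choice; `S_Grp` (1), (5)). Let `P = (x, y)`, `X = x/D`:
`y ^ 2 = D ^ 3 (X ^ 3 + a X + b)`.
(2) `h P = 0`: `X` is a constant (`S_Ht` (1)), so `y = 0` by `S_Ncs` and `P + P = 0` (`S_Grp` (7)). (1)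
`P = 0` clear. `y = 0`: `P + P = 0` and
`X ^ 3 + a X + b = 0`, so `X` is a constant (it is algebraic over `kk`: a root of `∏ (X - e i)`, `kk`
algebraically closed), `h P = 0`.
`y ≠ 0`: `S_Grp` (8) with `l = (3 x ^ 2 + a D ^ 2)/(2 y)`: the abscissa of `P + P` divided by `D` is
`((X ^ 2 - a) ^ 2 - 8 b X)/(4 (X ^ 3 + a X + b))`, `S_Ht` (3). -/
def S_Hgt : Prop := ∀ (a b : ℤ) (D : ℤ[X]), 4 * a ^ 3 + 27 * b ^ 2 ≠ 0 → NCS D →
  ∃ h : MK a b D → ℕ, (∀ P, h (P + P) = 4 * h P) ∧ ∀ P, h P = 0 → P + P = 0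

/-- **Cls** (100 lines, uses S_Grp, S_Two, S_Par, S_Ncs). The finitely many classes modulo `2`.

Proof. `x ^ 3 + a x + b = ∏ (x - e i)` over `kk`, `e` injective (discriminant). Class function on `MK`:
`P = (x, y)` with `y ≠ 0`: the class `c x` of
`S_Par`, in `Fin C`; `0` and the points `(e i D, 0)`: four more classes (the point itself). Equal classes:
for the four points `x - y = 0`.
For two points with `y ≠ 0`: `P + Q = z + z` by `S_Two` (with `e i D`; `A = a D ^ 2`, `B = b D ^ 3`), so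
`P - Q = (z - Q) + (z - Q)`. -/
def S_Cls : Prop := ∀ (a b : ℤ) (D : ℤ[X]), 4 * a ^ 3 + 27 * b ^ 2 ≠ 0 → NCS D →
  ∃ (C : ℕ) (c : MK a b D → Fin C), ∀ P Q, c P = c Q → ∃ z, P - Q = z + z

/-- **Eig** (100 lines, uses S_Grp, S_Sig, S_Ncs). The eigenvector of a twist of positive rank.

Proof. If every point of `E_d(ℚ(T))` were of finite order then the rank would be `0`
(`Module.rank_eq_zero_iff_isTorsion`). Let `Q` be
a point of infinite order, `Q = (x0, y0)`, `y0 ≠ 0` (`S_Grp` (1), (7) over `RatFunc ℚ`; its discriminant is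
`4 A ^ 3 + 27 B ^ 2 =
(d D) ^ 6 (4 a ^ 3 + 27 b ^ 2) ≠ 0`; the coefficients of `crv (twA d (C a * D ^ 2)) (twB d (C b * D ^
3))` are `d ^ 2 a D ^ 2`, `d ^ 3 b D ^ 3`).
Let `i : RatFunc ℚ →+* FF` be the inclusion (`RatFunc.mapRingHom`), `x = i x0/d`, `y = i y0/(d w)` (`w` as
a constant): `y ^ 2 = x ^ 3 +
a D ^ 2 x + b D ^ 3` because `w ^ 2 = d`. `P = (x, y)` (`S_Grp` (3)), `y ≠ 0`, so `P + P ≠
0` (`S_Grp` (8): it has coordinates; (2)).
`S_Sig` for the action of `σ`. -/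
def S_Eig : Prop := ∀ (a b : ℤ) (D : ℤ[X]), 4 * a ^ 3 + 27 * b ^ 2 ≠ 0 → NCS D →
  ∀ (d : ℤ) (w : kk), Squarefree d → w ^ 2 = d →
    rk (twA d (C a * D ^ 2)) (twB d (C b * D ^ 3)) ≠ 0 →
    ∃ (P : MK a b D) (x y : FF), IsXY P x y ∧ P + P ≠ 0 ∧ ∀ σ : kk ≃ₐ[ℚ] kk, SS σ x = x ∧
      (σ w = w → SS σ y = y) ∧ (σ w = -w → SS σ y = -y)

/-- **All** (uses all). Suppose the set is infinite; `C` from `S_Cls`, `N` with `C < 2^N`; choose `N`
different squarefree `d_i` with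
positive rank, roots `w_i`, points `P_i` (`S_Eig`), automorphisms `σ_ij` (`S_Gal`), `s_ij` from `S_Map`
with `SS σ_ij`; `S_Abs` gives
`2^N ≤ C`. -/
def S_All : Prop := S_Abs → S_Grp → S_Map → S_Two → S_Ht → S_Ncs → S_Par → S_Sig → S_Gal →
  S_Hgt → S_Cls → S_Eig → RankStmt

end Pool.Agent.Lib.NagA.R
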