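import Pool.Agent.Lib.MP_60fb2a_nt.R.All

/-!
# MP_60fb2a_nt, directory R: for almost all squarefree `d` every point of the twist is killed by `2`
-/

set_option autoImplicit false

namespace Pool.Agent.Lib.NagA.R

open Polynomial Classical

/-- For all but finitely many squarefree `d` every point over `ℚ(T)` of the twist by `d` of
`D y ^ 2 = x ^ 3 + a x + b` is killed by `2`. -/
def TorStmt : Prop := ∀ (a b : ℤ) (D : ℤ[X]), 4 * a ^ 3 + 27 * b ^ 2 ≠ 0 → NCS D →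
  {d : ℤ | Squarefree d ∧ ∃ Q : (crv (twA d (C a * D ^ 2)) (twB d (C b * D ^ 3))).toAffine.Point,
    (2 : ℤ) • Q ≠ 0}.Finite

/-- the eigenvector of a twist with a point which is not killed by `2` -/
def S_EigT : Prop := ∀ (a b : ℤ) (D : ℤ[X]), 4 * a ^ 3 + 27 * b ^ 2 ≠ 0 → NCS D →
  ∀ (d : ℤ) (w : kk), Squarefree d → w ^ 2 = d →
    (∃ Q : (crv (twA d (C a * D ^ 2)) (twB d (C b * D ^ 3))).toAffine.Point, (2 : ℤ) • Q ≠ 0) →
    ∃ (P : MK a b D) (x y : FF), IsXY P x y ∧ P + P ≠ 0 ∧ ∀ σ : kk ≃ₐ[ℚ] kk, SS σ x = x ∧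
      (σ w = w → SS σ y = y) ∧ (σ w = -w → SS σ y = -y)


private theorem EigT_cz : CharZero FF :=
  charZero_of_injective_ringHom (RatFunc.C : kk →+* FF).injective

private theorem EigT_i : ∃ i : RatFunc ℚ →+* FF, ∀ p : ℚ[X],
    i (algebraMap ℚ[X] (RatFunc ℚ) p) = algebraMap kk[X] FF (p.map (algebraMap ℚ kk)) := by
  have hφ : nonZeroDivisors ℚ[X] ≤
      (nonZeroDivisors kk[X]).comap (Polynomial.mapRingHom (algebraMap ℚ kk)) := by
    intro p hp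
    rw [Submonoid.mem_comap, mem_nonZeroDivisors_iff_ne_zero]
    rw [mem_nonZeroDivisors_iff_ne_zero] at hp
    intro h
    apply hp
    exact (Polynomial.map_injective _ (algebraMap ℚ kk).injective) (by simpa using h)
  refine ⟨RatFunc.mapRingHom (Polynomial.mapRingHom (algebraMap ℚ kk)) hφ, ?_⟩
  intro p
  have h1 : algebraMap ℚ[X] (RatFunc ℚ) p =
      algebraMap ℚ[X] (RatFunc ℚ) p / algebraMap ℚ[X] (RatFunc ℚ) 1 := by
    rw [map_one, div_one]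
  rw [h1]
  have h2 := RatFunc.map_apply_div (Polynomial.mapRingHom (algebraMap ℚ kk)) hφ p 1
  have h3 : RatFunc.mapRingHom (Polynomial.mapRingHom (algebraMap ℚ kk)) hφ
      (algebraMap ℚ[X] (RatFunc ℚ) p / algebraMap ℚ[X] (RatFunc ℚ) 1) =
      algebraMap kk[X] FF (Polynomial.mapRingHom (algebraMap ℚ kk) p) /
      algebraMap kk[X] FF (Polynomial.mapRingHom (algebraMap ℚ kk) 1) := h2
  rw [h3, map_one, map_one, div_one]
  rfl

private theorem EigT_mapA (A : ℤ[X]) : (A.map (Int.castRingHom ℚ)).map (algebraMap ℚ kk) =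
    A.map (Int.castRingHom kk) := by
  rw [Polynomial.map_map]
  have h1 : (algebraMap ℚ kk).comp (Int.castRingHom ℚ) = Int.castRingHom kk :=
    RingHom.ext_int _ _
  rw [h1]

private theorem EigT_int (n : ℤ) : algebraMap kk[X] FF (C ((n : ℤ) : kk)) = (n : FF) := by
  rw [RatFunc.algebraMap_C]
  exact map_intCast _ _

theorem tEigT (h1 : S_Grp) (h2 : S_Sig) (h3 : S_Ncs) : S_EigT := by
  intro a b D hd hD d w hsq hw hrk
  have hcz : CharZero FF := EigT_cz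
  obtain ⟨hD0, hdd0, -⟩ := h3 D hD
  have hdisc0 : (4 * a ^ 3 + 27 * b ^ 2 : FF) ≠ 0 := by exact_mod_cast hd
  have hd0 : (d : FF) ≠ 0 := by exact_mod_cast hsq.ne_zero
  have hdk : (d : kk) ≠ 0 := by exact_mod_cast hsq.ne_zero
  have hw0 : w ≠ 0 := by
    intro h
    rw [h] at hw
    exact hdk (by rw [← hw]; ring)
  have hCw0 : (RatFunc.C w : FF) ≠ 0 := (map_ne_zero_iff _ RatFunc.C_injective).2 hw0
  have hCw : (RatFunc.C w : FF) ^ 2 = (d : FF) := by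
    rw [← map_pow, hw]
    exact map_intCast _ _
  obtain ⟨i, hi⟩ := EigT_i
  obtain ⟨A0, hA0⟩ : ∃ A0 : RatFunc ℚ, A0 = algebraMap (Polynomial ℚ) (RatFunc ℚ)
    ((twA d (C a * D ^ 2)).map (Int.castRingHom ℚ)) := ⟨_, rfl⟩
  obtain ⟨B0, hB0⟩ : ∃ B0 : RatFunc ℚ, B0 = algebraMap (Polynomial ℚ) (RatFunc ℚ)
    ((twB d (C b * D ^ 3)).map (Int.castRingHom ℚ)) := ⟨_, rfl⟩
  have hiA : i A0 = (d : FF) ^ 2 * ((a : FF) * dd D ^ 2) := by
    rw [hA0, hi, EigT_mapA, twA, Polynomial.map_mul, Polynomial.map_mul, Polynomial.map_C,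
      Polynomial.map_C, Polynomial.map_pow, map_mul, map_mul, map_pow (algebraMap kk[X] FF)]
    have h4 : (Int.castRingHom kk) (d ^ 2) = ((d ^ 2 : ℤ) : kk) := rfl
    have h5 : (Int.castRingHom kk) a = ((a : ℤ) : kk) := rfl
    rw [h4, h5, EigT_int, EigT_int]
    push_cast
    rfl
  have hiB : i B0 = (d : FF) ^ 3 * ((b : FF) * dd D ^ 3) := by
    rw [hB0, hi, EigT_mapA, twB, Polynomial.map_mul, Polynomial.map_mul, Polynomial.map_C,
      Polynomial.map_C, Polynomial.map_pow, map_mul, map_mul, map_pow (algebraMap kk[X] FF)]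
    have h4 : (Int.castRingHom kk) (d ^ 3) = ((d ^ 3 : ℤ) : kk) := rfl
    have h5 : (Int.castRingHom kk) b = ((b : ℤ) : kk) := rfl
    rw [h4, h5, EigT_int, EigT_int]
    push_cast
    rfl
  have hdiscQ : 4 * A0 ^ 3 + 27 * B0 ^ 2 ≠ 0 := by
    intro h
    have h4 := congrArg i h
    rw [map_add, map_mul, map_mul, map_pow, map_pow, map_ofNat, map_ofNat, hiA, hiB,
      map_zero] at h4
    have h5 : 4 * ((d : FF) ^ 2 * ((a : FF) * dd D ^ 2)) ^ 3 +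
        27 * ((d : FF) ^ 3 * ((b : FF) * dd D ^ 3)) ^ 2 =
        (d : FF) ^ 6 * dd D ^ 6 * (4 * a ^ 3 + 27 * b ^ 2 : FF) := by ring
    rw [h5] at h4
    exact mul_ne_zero (mul_ne_zero (pow_ne_zero _ hd0) (pow_ne_zero _ hdd0)) hdisc0 h4
  have hdisc : 4 * ((a : FF) * dd D ^ 2) ^ 3 + 27 * ((b : FF) * dd D ^ 3) ^ 2 ≠ 0 := by
    have h1 : 4 * ((a : FF) * dd D ^ 2) ^ 3 + 27 * ((b : FF) * dd D ^ 3) ^ 2 =
        dd D ^ 6 * (4 * a ^ 3 + 27 * b ^ 2 : FF) := by ring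
    rw [h1]
    exact mul_ne_zero (pow_ne_zero _ hdd0) hdisc0
  -- a point of the twist with non-zero ordinate
  obtain ⟨x0, y0, hy0, heq0⟩ : ∃ x0 y0 : RatFunc ℚ, y0 ≠ 0 ∧
      y0 ^ 2 = x0 ^ 3 + A0 * x0 + B0 := by
    obtain ⟨q1, q2, -, -, -, -, q7, -, -⟩ := h1 (RatFunc ℚ) A0 B0 two_ne_zero hdiscQ
    have hrk' : ∃ Q : Pt A0 B0, (2 : ℤ) • Q ≠ 0 := by
      rw [hA0, hB0]
      exact hrk
    obtain ⟨Q, hQ2⟩ := hrk'
    rcases q1 Q with hQ | ⟨x, y, hQ⟩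
    · exact absurd (by rw [hQ, smul_zero]) hQ2
    · by_cases hy : y = 0
      · subst hy
        exact absurd (by rw [two_smul]; exact q7 Q x hQ) hQ2
      · exact ⟨x, y, hy, (q2 Q x y hQ).2⟩
  obtain ⟨g1, g2, g3, g4, g5, g6, g7, g8, -⟩ :=
    h1 FF ((a : FF) * dd D ^ 2) ((b : FF) * dd D ^ 3) two_ne_zero hdisc
  obtain ⟨x, hx⟩ : ∃ x, x = i x0 / (d : FF) := ⟨_, rfl⟩
  obtain ⟨y, hy⟩ : ∃ y, y = i y0 / ((d : FF) * RatFunc.C w) := ⟨_, rfl⟩
  have hix : i x0 = (d : FF) * x := by rw [hx]; field_simp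
  have hiy : i y0 = (d : FF) * RatFunc.C w * y := by rw [hy]; field_simp
  have heq : y ^ 2 = x ^ 3 + ((a : FF) * dd D ^ 2) * x + (b : FF) * dd D ^ 3 := by
    have h4 := congrArg i heq0
    rw [map_add, map_add, map_mul, map_pow, map_pow, hiA, hiB, hix, hiy] at h4
    have h5 : (d : FF) ^ 3 ≠ 0 := pow_ne_zero _ hd0
    apply mul_left_cancel₀ h5
    linear_combination h4 - (d : FF) ^ 2 * y ^ 2 * hCw
  have hyne : y ≠ 0 := by
    intro h
    rw [h, mul_zero] at hiy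
    exact hy0 ((map_eq_zero i).1 hiy)
  obtain ⟨P, hP⟩ := g3 x y heq
  refine ⟨P, x, y, hP, ?_, ?_⟩
  · have h4 := g8 P x y ((3 * x ^ 2 + (a : FF) * dd D ^ 2) / (2 * y)) _ hP hyne
      (by field_simp) rfl
    exact (g2 _ _ _ h4).1
  · intro σ
    obtain ⟨s1, s2, s3, s4, s5⟩ := h2 σ
    have h4 : SS σ x = x := by rw [hx, map_div₀, s4, s5 i hi]
    have h5 : SS σ y = i y0 / ((d : FF) * RatFunc.C (σ w)) := by
      rw [hy, map_div₀, map_mul, s4, s5 i hi, s1]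
    refine ⟨h4, ?_, ?_⟩
    · intro h6
      rw [h5, h6, hy]
    · intro h6
      rw [h5, h6, hy, map_neg, mul_neg, div_neg]

private theorem Tor_main (hAbs : S_Abs) (hGrp : S_Grp) (hMap : S_Map) (hNcs : S_Ncs) (hSig : S_Sig)
    (hGal : S_Gal) (hHgt : S_Hgt) (hCls : S_Cls) (hEig : S_EigT) : TorStmt := by
  intro a b D hd hD
  have hcz : CharZero FF := EigT_cz
  by_contra hinf
  have hinf' : {d : ℤ | Squarefree d ∧
      ∃ Q : (crv (twA d (C a * D ^ 2)) (twB d (C b * D ^ 3))).toAffine.Point,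
        (2 : ℤ) • Q ≠ 0}.Infinite := hinf
  obtain ⟨Cn, c, hc⟩ := hCls a b D hd hD
  obtain ⟨h, h4, h0⟩ := hHgt a b D hd hD
  obtain ⟨N, hN⟩ : ∃ N : ℕ, Cn < 2 ^ N := ⟨Cn, Nat.lt_two_pow_self⟩
  obtain ⟨S, hSsub, hScard⟩ := hinf'.exists_subset_card_eq N
  set e := S.equivFinOfCardEq hScard with he
  set d : Fin N → ℤ := fun i => ((e.symm i : S) : ℤ) with hdd
  have hdinj : Function.Injective d := by
    intro i j hij
    exact e.symm.injective (Subtype.ext hij)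
  have hdS : ∀ i, Squarefree (d i) ∧
      ∃ Q : (crv (twA (d i) (C a * D ^ 2)) (twB (d i) (C b * D ^ 3))).toAffine.Point,
        (2 : ℤ) • Q ≠ 0 := by
    intro i
    have := hSsub (e.symm i).2
    exact this
  have hw : ∀ i, ∃ w : kk, w ^ 2 = ((d i : ℤ) : kk) := fun i =>
    IsAlgClosed.exists_pow_nat_eq _ two_pos
  choose w hw using hw
  have hP : ∀ i, ∃ (P : MK a b D) (x y : FF), IsXY P x y ∧ P + P ≠ 0 ∧
      ∀ σ : kk ≃ₐ[ℚ] kk, SS σ x = x ∧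
      (σ (w i) = w i → SS σ y = y) ∧ (σ (w i) = -w i → SS σ y = -y) := fun i =>
    hEig a b D hd hD (d i) (w i) (hdS i).1 (hw i) (hdS i).2
  choose P x y hPxy hPP hσ using hP
  have hdisc : 4 * ((a : FF) * dd D ^ 2) ^ 3 + 27 * ((b : FF) * dd D ^ 3) ^ 2 ≠ 0 := by
    have h1 : 4 * ((a : FF) * dd D ^ 2) ^ 3 + 27 * ((b : FF) * dd D ^ 3) ^ 2 =
        dd D ^ 6 * ((4 * a ^ 3 + 27 * b ^ 2 : ℤ) : FF) := by push_cast; ring
    rw [h1]
    refine mul_ne_zero (pow_ne_zero _ (hNcs D hD).2.1) ?_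
    exact_mod_cast hd
  obtain ⟨-, -, -, hG4, -, hG6, -, -, -⟩ := hGrp FF ((a : FF) * dd D ^ 2) ((b : FF) * dd D ^ 3)
    two_ne_zero hdisc
  have hfin : 2 ^ N ≤ Cn := by
    refine hAbs (MK a b D) Cn N c h hc h4 h0 P hPP ?_
    intro i j hij
    obtain ⟨σ, hs⟩ := hGal (d i) (d j) (w i) (w j) (hdS i).1 (hdS j).1
      (fun hh => hij (hdinj hh)) (hw i) (hw j)
    have hA : SS σ ((a : FF) * dd D ^ 2) = (a : FF) * dd D ^ 2 := by
      rw [map_mul, map_pow, (hSig σ).2.2.1 D, (hSig σ).2.2.2.1 a]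
    have hB : SS σ ((b : FF) * dd D ^ 3) = (b : FF) * dd D ^ 3 := by
      rw [map_mul, map_pow, (hSig σ).2.2.1 D, (hSig σ).2.2.2.1 b]
    obtain ⟨g, hg⟩ := hMap FF ((a : FF) * dd D ^ 2) ((b : FF) * dd D ^ 3) (SS σ) hA hB
    have hplus : ∀ l, σ (w l) = w l → g (P l) = P l := by
      intro l hl
      have h1 := hg (P l) (x l) (y l) (hPxy l)
      rw [(hσ l σ).1, (hσ l σ).2.1 hl] at h1
      exact hG4 _ _ _ _ h1 (hPxy l)
    have hminus : ∀ l, σ (w l) = -w l → g (P l) = -P l := by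
      intro l hl
      have h1 := hg (P l) (x l) (y l) (hPxy l)
      rw [(hσ l σ).1, (hσ l σ).2.2 hl] at h1
      exact hG4 _ _ _ _ h1 (hG6 _ _ _ (hPxy l))
    refine ⟨g, ?_, ?_⟩
    · intro l
      have h1 : (σ (w l)) ^ 2 = (w l) ^ 2 := by
        rw [← map_pow, hw l, map_intCast]
      rcases sq_eq_sq_iff_eq_or_eq_neg.mp h1 with h2 | h2
      · exact Or.inl (hplus l h2)
      · exact Or.inr (hminus l h2)
    · rcases hs with ⟨h1, h2⟩ | ⟨h1, h2⟩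
      · exact Or.inl ⟨hplus i h1, hminus j h2⟩
      · exact Or.inr ⟨hminus i h1, hplus j h2⟩
  omega

/-- For all but finitely many squarefree `d` every point of the twist over `ℚ(T)` is killed by `2`. -/
theorem torAll : TorStmt :=
  Tor_main tAbs tGrp tMap tNcs tSig tGal (tHgt tGrp tHt tNcs)
    (tCls tGrp (tTwo tGrp) tPar tNcs) (tEigT tGrp tSig tNcs)

end Pool.Agent.Lib.NagA.R
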